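import Pool.Agent.T5h70.SE.Stm

/-!
# BAD (helper38)
-/

set_option autoImplicit false
set_option linter.all false

namespace Pool.Agent.T5h70.SE.BAD

open Pool.Agent.T5h70.SE

universe u v

theorem t_BAD : S_BAD.{u,v} := by
  intro Γ _ X _ ρ F δ b d σ φ h0 hb hφ γ hγ
  have h1 := hφ γ hγ
  rcases Nat.eq_zero_or_pos d with rfl | hd
  · simp
  have hdR : (0 : ℝ) < d := by exact_mod_cast hd
  have hδ : 0 ≤ δ := (Real.sqrt_nonneg _).trans h1
  have hS0 : 0 ≤ (∑ j, ρ (φ (σ γ j)) (γ • φ j) ^ 2) / d := by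
    apply div_nonneg _ hdR.le
    exact Finset.sum_nonneg fun j _ => sq_nonneg _
  have h2 : (∑ j, ρ (φ (σ γ j)) (γ • φ j) ^ 2) / d ≤ δ ^ 2 := by
    rw [← Real.sq_sqrt hS0]
    exact pow_le_pow_left₀ (Real.sqrt_nonneg _) h1 2
  rw [div_le_iff₀ hdR] at h2
  have h3 : ((Finset.univ.filter fun j => b ≤ ρ (φ (σ γ j)) (γ • φ j)).card : ℝ) * b ^ 2 ≤
      ∑ j, ρ (φ (σ γ j)) (γ • φ j) ^ 2 := by
    calc ((Finset.univ.filter fun j => b ≤ ρ (φ (σ γ j)) (γ • φ j)).card : ℝ) * b ^ 2 =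
          ∑ j ∈ Finset.univ.filter (fun j => b ≤ ρ (φ (σ γ j)) (γ • φ j)), b ^ 2 := by
          rw [Finset.sum_const, nsmul_eq_mul]
      _ ≤ ∑ j ∈ Finset.univ.filter (fun j => b ≤ ρ (φ (σ γ j)) (γ • φ j)),
          ρ (φ (σ γ j)) (γ • φ j) ^ 2 := by
          refine Finset.sum_le_sum fun j hj => ?_
          exact pow_le_pow_left₀ hb.le (Finset.mem_filter.1 hj).2 2
      _ ≤ _ := Finset.sum_le_sum_of_subset_of_nonneg (Finset.filter_subset _ _)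
          fun j _ _ => sq_nonneg _
  rw [div_mul_eq_mul_div, le_div_iff₀ (by positivity)]
  linarith

end Pool.Agent.T5h70.SE.BAD
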