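import Pool.Agent.T5h70.SE.Stm

/-!
# BND (helper38)
-/

set_option autoImplicit false
set_option linter.all false

namespace Pool.Agent.T5h70.SE.BND

open Pool.Agent.T5h70.SE

universe u v

theorem t_BND : S_BND.{v} := by
  intro X _ ρ _ hρ
  have h0 : ∀ x y, 0 ≤ ρ x y := by
    intro x y
    have h1 := hρ.triangle x y x
    rw [hρ.self, hρ.comm y x] at h1
    linarith
  obtain ⟨M, hM⟩ := (isCompact_univ.image hρ.cont).bddAbove
  refine ⟨max M 1, by positivity, fun x y => ⟨h0 x y, ?_⟩⟩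
  exact (hM ⟨(x, y), Set.mem_univ _, rfl⟩).trans (le_max_left _ _)

end Pool.Agent.T5h70.SE.BND
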