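import Pool.Agent.T5h70.SE.Stm

/-!
# CNT (helper38)
-/

set_option autoImplicit false
set_option linter.all false

namespace Pool.Agent.T5h70.SE.CNT

open Pool.Agent.T5h70.SE

universe u v

theorem t_CNT : S_CNT := by
  classical
  intro η hη
  obtain ⟨x, hx⟩ : ∃ x : ℝ, x = min (1 / 2) (η / 2) := ⟨_, rfl⟩
  have hx0 : 0 < x := by
    rw [hx]
    exact lt_min (by norm_num) (by linarith)
  have hx1 : x ≤ 1 / 2 := by rw [hx]; exact min_le_left _ _
  have hx2 : x ≤ η / 2 := by rw [hx]; exact min_le_right _ _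
  have hlog : Real.log x < 0 := Real.log_neg hx0 (by linarith)
  obtain ⟨κ, hκ⟩ : ∃ κ : ℝ, κ = (η / 2) / (-Real.log x) := ⟨_, rfl⟩
  have hκ0 : 0 < κ := by
    rw [hκ]
    exact div_pos (by linarith) (by linarith)
  have hκl : κ * (-Real.log x) = η / 2 := by
    rw [hκ]
    exact div_mul_cancel₀ _ (by linarith)
  refine ⟨κ, hκ0, fun d => ?_⟩
  have h1 : ∑ B : Finset (Fin d), x ^ B.card = (x + 1) ^ d := by
    have := Finset.sum_pow_mul_eq_add_pow x 1 (Finset.univ : Finset (Fin d))
    rw [Finset.card_univ, Fintype.card_fin, Finset.powerset_univ] at this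
    rw [← this]
    refine Finset.sum_congr rfl fun B _ => ?_
    rw [one_pow, mul_one]
  have h2 : (((Finset.univ : Finset (Finset (Fin d))).filter fun B =>
      (B.card : ℝ) ≤ κ * d).card : ℝ) * Real.exp (κ * d * Real.log x) ≤
      ∑ B : Finset (Fin d), x ^ B.card := by
    calc _ = ∑ B ∈ (Finset.univ : Finset (Finset (Fin d))).filter fun B =>
          (B.card : ℝ) ≤ κ * d, Real.exp (κ * d * Real.log x) := by
          rw [Finset.sum_const, nsmul_eq_mul]
      _ ≤ ∑ B ∈ (Finset.univ : Finset (Finset (Fin d))).filter fun B =>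
          (B.card : ℝ) ≤ κ * d, x ^ B.card := by
          refine Finset.sum_le_sum fun B hB => ?_
          have hB' := (Finset.mem_filter.1 hB).2
          have e1 : x ^ B.card = Real.exp (B.card * Real.log x) := by
            rw [Real.exp_nat_mul, Real.exp_log hx0]
          rw [e1]
          apply Real.exp_le_exp.2
          nlinarith
      _ ≤ _ := Finset.sum_le_sum_of_subset_of_nonneg (Finset.filter_subset _ _)
          fun B _ _ => by positivity
  have h3 : (x + 1) ^ d ≤ Real.exp (x * d) := by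
    have := Real.add_one_le_exp x
    calc (x + 1) ^ d ≤ Real.exp x ^ d := by gcongr
      _ = Real.exp (x * d) := by
        rw [← Real.exp_nat_mul, mul_comm]
  rw [h1] at h2
  have h4 : (((Finset.univ : Finset (Finset (Fin d))).filter fun B =>
      (B.card : ℝ) ≤ κ * d).card : ℝ) ≤ Real.exp (x * d) * Real.exp (-(κ * d * Real.log x)) := by
    rw [Real.exp_neg, ← div_eq_mul_inv, le_div_iff₀ (Real.exp_pos _)]
    exact h2.trans h3
  refine h4.trans ?_
  rw [← Real.exp_add]
  apply Real.exp_le_exp.2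
  have hd : (0 : ℝ) ≤ d := Nat.cast_nonneg _
  nlinarith [mul_nonneg hd hx0.le, mul_le_mul_of_nonneg_right hx2 hd]

end Pool.Agent.T5h70.SE.CNT
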