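import Pool.Agent.T5h70.SE.Stm

/-! Task DUA of project SE. -/

set_option autoImplicit false

namespace Pool.Agent.T5h70.SE

open Filter Topology
open scoped ENNReal Pointwise

universe u

namespace DUAF

theorem exists_toAddCircle {p : ℕ} [NeZero p] (z : UnitAddCircle) (h : p • z = 0) :
    ∃ a : ZMod p, ZMod.toAddCircle a = z := by
  obtain ⟨x, rfl⟩ := QuotientAddGroup.mk_surjective z
  have h1 : (((p : ℝ) * x : ℝ) : UnitAddCircle) = 0 := by
    rw [← nsmul_eq_mul]
    exact h
  rw [AddCircle.coe_eq_zero_iff] at h1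
  obtain ⟨n, hn⟩ := h1
  refine ⟨(n : ZMod p), ?_⟩
  rw [ZMod.toAddCircle_intCast]
  have hp : (p : ℝ) ≠ 0 := Nat.cast_ne_zero.2 (NeZero.ne p)
  have h2 : (n : ℝ) / p = x := by
    rw [div_eq_iff hp, mul_comm x, ← hn]
    simp
  rw [h2]

section
variable {Γ : Type u} [Group Γ] {A : Type u} [AddCommGroup A] [Module (MonoidAlgebra ℤ Γ) A]

/-- value of a character -/
def ap (χ : Dual Γ A) (a : A) : UnitAddCircle := (show A →+ UnitAddCircle from χ) a

theorem ap_smul (γ : Γ) (χ : Dual Γ A) (a : A) :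
    ap (γ • χ) a = ap χ (MonoidAlgebra.of ℤ Γ γ⁻¹ • a) := rfl

theorem ap_add (χ : Dual Γ A) (a b : A) : ap χ (a + b) = ap χ a + ap χ b :=
  map_add (show A →+ UnitAddCircle from χ) a b

theorem ap_nsmul (χ : Dual Γ A) (n : ℕ) (a : A) : ap χ (n • a) = n • ap χ a :=
  map_nsmul (show A →+ UnitAddCircle from χ) n a

theorem ap_zero (χ : Dual Γ A) : ap χ 0 = 0 := map_zero (show A →+ UnitAddCircle from χ)

theorem ind : IsInducing (fun (χ : Dual Γ A) (a : A) => ap χ a) := ⟨rfl⟩

theorem cont_ap (a : A) : Continuous (fun χ : Dual Γ A => ap χ a) :=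
  (continuous_apply a).comp ind.continuous

theorem cont_smul (γ : Γ) : Continuous (fun χ : Dual Γ A => γ • χ) := by
  rw [ind.continuous_iff]
  exact continuous_pi fun a => cont_ap _

theorem compact : CompactSpace (Dual Γ A) := by
  refine ⟨?_⟩
  rw [ind.isCompact_iff]
  have h1 : (fun (χ : Dual Γ A) (a : A) => ap χ a) '' Set.univ =
      {f | ∀ a b, f (a + b) = f a + f b} := by
    ext f
    constructor
    · rintro ⟨χ, -, rfl⟩ a b
      exact ap_add χ a b
    · intro hf
      exact ⟨AddMonoidHom.mk' f hf, trivial, rfl⟩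
  rw [h1]
  apply IsClosed.isCompact
  simp only [Set.ofPred_forall]
  exact isClosed_iInter fun a => isClosed_iInter fun b =>
    isClosed_eq (continuous_apply _) (by fun_prop)

end

section
variable (Γ : Type u) [Group Γ] (p n : ℕ)

/-- the elements `g e_i` -/
noncomputable def ee (i : Fin n) (g : Γ) : Fin n → MonoidAlgebra (ZMod p) Γ :=
  Pi.single i (MonoidAlgebra.single g 1)

theorem of_smul_ee (g h : Γ) (i : Fin n) :
    MonoidAlgebra.of ℤ Γ g • ee Γ p n i h = ee Γ p n i (g * h) := by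
  funext j
  change MonoidAlgebra.mapRingHom Γ (Int.castRingHom (ZMod p)) (MonoidAlgebra.of ℤ Γ g) *
    ee Γ p n i h j = ee Γ p n i (g * h) j
  have h1 : MonoidAlgebra.mapRingHom Γ (Int.castRingHom (ZMod p)) (MonoidAlgebra.of ℤ Γ g) =
      MonoidAlgebra.single g 1 := by
    simp [MonoidAlgebra.of_apply]
  rw [h1]
  unfold ee
  by_cases hj : j = i
  · subst hj
    simp [MonoidAlgebra.single_mul_single]
  · simp [hj]

theorem p_ee (i : Fin n) (g : Γ) : p • ee Γ p n i g = 0 := by
  unfold ee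
  rw [← Pi.single_smul]
  have : (p • (MonoidAlgebra.single g 1 : MonoidAlgebra (ZMod p) Γ)) =
      MonoidAlgebra.single g (p • (1 : ZMod p)) := MonoidAlgebra.smul_single _ _ _
  rw [this]
  simp

theorem single_eq [NeZero p] (i : Fin n) (g : Γ) (a : ZMod p) :
    (Pi.single i (MonoidAlgebra.single g a) : Fin n → MonoidAlgebra (ZMod p) Γ) =
      a.val • ee Γ p n i g := by
  unfold ee
  rw [← Pi.single_smul]
  have : (a.val • (MonoidAlgebra.single g 1 : MonoidAlgebra (ZMod p) Γ)) =
      MonoidAlgebra.single g (a.val • (1 : ZMod p)) := MonoidAlgebra.smul_single _ _ _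
  rw [this]
  simp

/-- the character with given values at the `g e_i` -/
noncomputable def chr [NeZero p] (F : Γ → Fin n → ZMod p) :
    (Fin n → MonoidAlgebra (ZMod p) Γ) →+ UnitAddCircle :=
  ∑ i : Fin n, ((Finsupp.liftAddHom fun g : Γ =>
    (ZMod.toAddCircle (N := p)).comp (AddMonoidHom.mulRight (F g i))).comp
      (MonoidAlgebra.coeffAddEquiv (R := ZMod p) (M := Γ)).toAddMonoidHom).comp
        (Pi.evalAddMonoidHom _ i)

theorem chr_ee [NeZero p] (F : Γ → Fin n → ZMod p) (i : Fin n) (g : Γ) :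
    chr Γ p n F (ee Γ p n i g) = ZMod.toAddCircle (F g i) := by
  unfold chr ee
  rw [AddMonoidHom.finsetSum_apply, Finset.sum_eq_single i]
  · change Finsupp.liftAddHom _ (MonoidAlgebra.coeff ((Pi.single i (MonoidAlgebra.single g 1) :
      Fin n → MonoidAlgebra (ZMod p) Γ) i)) = _
    rw [Pi.single_eq_same, MonoidAlgebra.coeff_single, Finsupp.liftAddHom_apply_single]
    simp
  · intro j _ hj
    simp [hj]
  · intro h
    exact absurd (Finset.mem_univ _) h

theorem hom_ext [NeZero p] (f f' : (Fin n → MonoidAlgebra (ZMod p) Γ) →+ UnitAddCircle)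
    (h : ∀ i g, f (ee Γ p n i g) = f' (ee Γ p n i g)) : f = f' := by
  refine AddMonoidHom.functions_ext _ _ _ fun i x => ?_
  induction x using MonoidAlgebra.induction_linear with
  | zero => rw [Pi.single_zero, map_zero, map_zero]
  | add x y hx hy => rw [Pi.single_add, map_add, map_add, hx, hy]
  | single g a => rw [single_eq, map_nsmul, map_nsmul, h i g]

end

end DUAF

open DUAF

theorem t_DUA : S_DUA.{u} := by
  intro Γ _ p n hp
  have hne : NeZero p := ⟨hp.out.ne_zero⟩
  have htor : ∀ (χ : Dual Γ (Fin n → MonoidAlgebra (ZMod p) Γ)) (i : Fin n) (g : Γ),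
      ∃ a : ZMod p, ZMod.toAddCircle a = ap χ (ee Γ p n i g) := by
    intro χ i g
    apply exists_toAddCircle
    rw [← ap_nsmul, p_ee, ap_zero]
  choose cc hcc using htor
  let c : Dual Γ (Fin n → MonoidAlgebra (ZMod p) Γ) → (Fin n → ZMod p) := fun χ i => cc χ i 1
  have hc : ∀ χ i, ZMod.toAddCircle (c χ i) = ap χ (ee Γ p n i 1) := fun χ i => hcc χ i 1
  have hcs : ∀ (χ : Dual Γ (Fin n → MonoidAlgebra (ZMod p) Γ)) i (γ : Γ),
      ZMod.toAddCircle (c (γ • χ) i) = ap χ (ee Γ p n i γ⁻¹) := by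
    intro χ i γ
    rw [hc, ap_smul, of_smul_ee, mul_one]
  have hclosed : ∀ a : Fin n → ZMod p, IsClosed (c ⁻¹' {a}) := by
    intro a
    have h1 : c ⁻¹' {a} = ⋂ i, {χ | ap χ (ee Γ p n i 1) = ZMod.toAddCircle (a i)} := by
      ext χ
      simp only [Set.mem_preimage, Set.mem_singleton_iff, Set.mem_iInter, Set.mem_ofPred_eq]
      constructor
      · rintro rfl i
        exact (hc χ i).symm
      · intro h
        funext i
        exact (ZMod.toAddCircle_injective p) ((hc χ i).trans (h i))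
    rw [h1]
    exact isClosed_iInter fun i => isClosed_eq (cont_ap _) continuous_const
  refine ⟨(Fin n → ZMod p), inferInstance, c, ?_, ⟨compact, cont_smul, ?_, ?_, ?_⟩⟩
  · rw [Fintype.card_pi]
    simp [ZMod.card]
  · intro s
    rw [← isClosed_compl_iff, ← Set.preimage_compl]
    have h1 : c ⁻¹' sᶜ = ⋃ a ∈ sᶜ, c ⁻¹' {a} := by
      ext χ
      simp
    rw [h1]
    exact Set.Finite.isClosed_biUnion (Set.toFinite _) fun a _ => hclosed a
  · intro χ ψ h
    have h1 : ∀ i (g : Γ), ap χ (ee Γ p n i g) = ap ψ (ee Γ p n i g) := by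
      intro i g
      have h2 := hcs χ i g⁻¹
      have h3 := hcs ψ i g⁻¹
      rw [inv_inv] at h2 h3
      rw [← h2, ← h3]
      exact congrArg _ (congrFun (congrFun h g⁻¹) i)
    exact hom_ext Γ p n χ ψ h1
  · intro F
    refine ⟨(chr Γ p n fun g i => F g⁻¹ i), ?_⟩
    funext γ i
    apply ZMod.toAddCircle_injective p
    refine (hcs (show Dual Γ _ from chr Γ p n fun g i => F g⁻¹ i) i γ).trans ?_
    change chr Γ p n (fun g i => F g⁻¹ i) (ee Γ p n i γ⁻¹) = _
    rw [chr_ee, inv_inv]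

end Pool.Agent.T5h70.SE
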