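import Pool.Agent.T5h70.SE.Stm

/-!
# Project SE, task EXP
-/

set_option autoImplicit false

namespace Pool.Agent.T5h70.SE.EXP

open Pool.Agent.T5h70.SE
open Filter Topology
open scoped Pointwise

universe u

theorem step {Γ : Type u} [Group Γ] [DecidableEq Γ] {S : Finset Γ} {ε : ℝ}
    (h : ∀ F : Finset Γ, F.Nonempty →
      ∃ s ∈ S, ε * F.card < (((F.image fun g => s * g) \ F).card : ℝ)) (F : Finset Γ) :
    (1 + ε) * F.card ≤ ((insert 1 S * F).card : ℝ) := by
  rcases F.eq_empty_or_nonempty with rfl | hF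
  · simp
  obtain ⟨s, hs, hlt⟩ := h F hF
  have hsub : F ∪ ((F.image fun g => s * g) \ F) ⊆ insert 1 S * F := by
    intro x hx
    rw [Finset.mem_union, Finset.mem_sdiff, Finset.mem_image] at hx
    rcases hx with hx | ⟨⟨g, hg, rfl⟩, -⟩
    · exact Finset.mem_mul.2 ⟨1, Finset.mem_insert_self _ _, x, hx, one_mul x⟩
    · exact Finset.mem_mul.2 ⟨s, Finset.mem_insert_of_mem hs, g, hg, rfl⟩
  have h1 := Finset.card_le_card hsub
  rw [Finset.card_union_of_disjoint Finset.disjoint_sdiff] at h1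
  have h2 : ((F.card : ℝ) + (((F.image fun g => s * g) \ F).card : ℝ)) ≤
      ((insert 1 S * F).card : ℝ) := by exact_mod_cast h1
  linarith

theorem pow {Γ : Type u} [Group Γ] [DecidableEq Γ] {S : Finset Γ} {ε : ℝ} (hε : 0 < ε)
    (h : ∀ F : Finset Γ, F.Nonempty →
      ∃ s ∈ S, ε * F.card < (((F.image fun g => s * g) \ F).card : ℝ)) (F : Finset Γ) (r : ℕ) :
    (1 + ε) ^ r * F.card ≤ (((insert 1 S) ^ r * F).card : ℝ) := by
  induction r with
  | zero => simp
  | succ r ih =>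
    rw [pow_succ', pow_succ', mul_assoc, mul_assoc]
    refine le_trans ?_ (step h _)
    exact mul_le_mul_of_nonneg_left ih (by linarith)

theorem not_am {Γ : Type u} [Group Γ] [i : DecidableEq Γ] (hna : ¬ Amenable Γ) :
    ∃ (S₀ : Finset Γ) (ε : ℝ), 0 < ε ∧ ∀ F : Finset Γ, F.Nonempty →
      ∃ s ∈ S₀, ε * F.card < (((F.image fun g => s * g) \ F).card : ℝ) := by
  by_contra hcon
  apply hna
  intro S ε hε
  by_contra h
  refine hcon ⟨S, ε, hε, fun F hF => ?_⟩
  by_contra h2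
  refine h ⟨F, hF, fun s hs => ?_⟩
  by_contra h3
  refine h2 ⟨s, hs, ?_⟩
  rw [not_le] at h3
  have hi : i = fun a b => Classical.propDecidable (a = b) := Subsingleton.elim _ _
  subst hi
  exact h3

theorem t_EXP : S_EXP.{u} := by
  intro Γ _ _ hna
  obtain ⟨S₀, ε, hε, h'⟩ := not_am hna
  set T : Finset Γ := insert 1 S₀ with hT
  have hTne : T.Nonempty := ⟨1, Finset.mem_insert_self _ _⟩
  have hlim : Tendsto (fun r : ℕ => (1 + (r : ℝ) * Real.log T.card) / (1 + ε) ^ r) atTop (𝓝 0) := by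
    have h1 : (1 : ℝ) < 1 + ε := by linarith
    have h2 : Tendsto (fun r : ℕ => (1 : ℝ) / (1 + ε) ^ r) atTop (𝓝 0) := by
      have := tendsto_pow_const_div_const_pow_of_one_lt 0 h1
      simpa using this
    have h3 : Tendsto (fun r : ℕ => (r : ℝ) / (1 + ε) ^ r) atTop (𝓝 0) := by
      have := tendsto_pow_const_div_const_pow_of_one_lt 1 h1
      simpa using this
    have h4 := h2.add (h3.mul_const (Real.log T.card))
    simp only [zero_mul, add_zero] at h4
    refine h4.congr fun r => ?_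
    ring
  obtain ⟨r, hr⟩ := (hlim.eventually (gt_mem_nhds one_pos)).exists
  have hpos : (0 : ℝ) < (1 + ε) ^ r := by positivity
  rw [div_lt_one hpos] at hr
  refine ⟨(T ^ r)⁻¹, (1 + ε) ^ r, (hTne.pow).inv, ?_, ?_⟩
  · rw [Finset.card_inv]
    have h1 : ((harmonic (T ^ r).card : ℚ) : ℝ) ≤ 1 + Real.log ((T ^ r).card : ℝ) :=
      harmonic_le_one_add_log _
    have h2 : ((T ^ r).card : ℝ) ≤ (T.card : ℝ) ^ r := by
      exact_mod_cast Finset.card_pow_le
    have h3 : (0 : ℝ) < ((T ^ r).card : ℝ) := by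
      exact_mod_cast Finset.card_pos.2 hTne.pow
    have h4 := Real.log_le_log h3 h2
    rw [Real.log_pow] at h4
    linarith
  · intro F
    have h1 := pow hε h' F⁻¹ r
    rw [Finset.card_inv] at h1
    refine h1.trans (le_of_eq ?_)
    have h2 : (F * (T ^ r)⁻¹)⁻¹ = T ^ r * F⁻¹ := by
      rw [mul_inv_rev, inv_inv]
    rw [← Finset.card_inv (F * (T ^ r)⁻¹), h2]

end Pool.Agent.T5h70.SE.EXP
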