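import Pool.Agent.T5h70.SE.Stm

/-!
# GEN (helper38)
-/

set_option autoImplicit false
set_option linter.all false

namespace Pool.Agent.T5h70.SE.GEN

open Pool.Agent.T5h70.SE

universe u v

theorem t_GEN : S_GEN.{u,v} := by
  classical
  intro Γ _ X _ _ 𝔸 c ρ hF hρ hG
  haveI := hF.comp
  have hf : IsLocallyConstant fun z : X × X => (c z.1, c z.2) :=
    (hF.loc.comp_continuous continuous_fst).prodMk (hF.loc.comp_continuous continuous_snd)
  have hK : IsCompact {z : X × X | c z.1 ≠ c z.2} := by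
    apply IsClosed.isCompact
    rw [← isOpen_compl_iff]
    have : {z : X × X | c z.1 ≠ c z.2}ᶜ = (fun z : X × X => (c z.1, c z.2)) ⁻¹' {p | p.1 = p.2} := by
      ext z
      simp
    rw [this]
    exact hf _
  have hU : ∀ i : Γ × ℕ, IsOpen {z : X × X | 1 / ((i.2 : ℝ) + 1) < ρ (i.1 • z.1) (i.1 • z.2)} := by
    intro i
    apply isOpen_lt continuous_const
    exact hρ.cont.comp (((hF.act i.1).comp continuous_fst).prodMk ((hF.act i.1).comp continuous_snd))
  have hcov : {z : X × X | c z.1 ≠ c z.2} ⊆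
      ⋃ i : Γ × ℕ, {z : X × X | 1 / ((i.2 : ℝ) + 1) < ρ (i.1 • z.1) (i.1 • z.2)} := by
    rintro ⟨x, y⟩ hz
    have hxy : x ≠ y := by
      rintro rfl
      exact hz rfl
    obtain ⟨γ, hγ⟩ := hG x y hxy
    obtain ⟨n, hn⟩ := exists_nat_one_div_lt hγ
    exact Set.mem_iUnion.2 ⟨(γ, n), hn⟩
  obtain ⟨t, ht⟩ := hK.elim_finite_subcover _ hU hcov
  refine ⟨t.image Prod.fst, 1 / ((t.sup Prod.snd : ℕ) + 1 : ℝ), by positivity, ?_⟩
  intro x y hxy
  have hz : ((x, y) : X × X) ∈ {z : X × X | c z.1 ≠ c z.2} := hxy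
  obtain ⟨i, hi, hi'⟩ := Set.mem_iUnion₂.1 (ht hz)
  refine ⟨i.1, Finset.mem_image_of_mem _ hi, ?_⟩
  refine le_trans ?_ (le_of_lt hi')
  have h1 : i.2 ≤ t.sup Prod.snd := Finset.le_sup (f := Prod.snd) hi
  have h2 : (i.2 : ℝ) ≤ (t.sup Prod.snd : ℕ) := by exact_mod_cast h1
  exact one_div_le_one_div_of_le (by positivity) (by linarith)

end Pool.Agent.T5h70.SE.GEN
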