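import Pool.Agent.T5h70.SE.Stm

/-!
# INJ: the injection
-/

set_option autoImplicit false

namespace Pool.Agent.T5h70.SE.INJ

open Pool.Agent.T5h70.SE
open scoped Pointwise

universe u

lemma pol_zero {K : Type} [Field K] {n : ℕ} (x : K) : pol (0 : Fin n → K) x = 0 := by
  simp [pol]

theorem t_INJ (h1 : S_EXP.{u}) (h2 : S_LCL.{u}) (h3 : S_PAR) (h4 : S_VDM.{u}) : S_INJ.{u} := by
  classical
  intro Γ _ hΓ
  obtain ⟨S, c, hSne, hc, hF⟩ := h1 Γ _ (Classical.decEq Γ) hΓ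
  obtain ⟨w, n, m, r, hmn, hn, hm, hr⟩ := h3 S.card c (Finset.card_pos.2 hSne) hc
  obtain ⟨p, hp, ν, μ, V1, V2⟩ := h4 Γ S (Classical.decEq Γ) S.card n r
  set J : Finset (Σ _ : ℕ, ℕ) := (Finset.Icc 1 S.card).sigma fun u => Finset.range (u * r u)
    with hJ
  have hJc : J.card = m := by
    rw [hJ, Finset.card_sigma, hm]
    exact Finset.sum_congr rfl fun u _ => Finset.card_range _
  let e : J ≃ Fin m := J.equivFinOfCardEq hJc
  refine ⟨p, hp, n, m, hmn, S, fun s j i => ∑ a ∈ Finset.range (r (e.symm j).1.1),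
    ν s (e.symm j).1.1 a ^ (e.symm j).1.2 * μ s (e.symm j).1.1 a ^ (i : ℕ), ?_⟩
  intro x hx
  have key : ∀ (h : Γ) (u b : ℕ), u ∈ Finset.Icc 1 S.card → b < u * r u →
      ∑ s ∈ S, ∑ a ∈ Finset.range (r u), ν s u a ^ b * pol (x (h * s⁻¹)) (μ s u a) = 0 := by
    intro h u b hu hb
    have hmem : (⟨u, b⟩ : Σ _ : ℕ, ℕ) ∈ J := by
      rw [hJ, Finset.mem_sigma, Finset.mem_range]
      exact ⟨hu, hb⟩
    have h5 := hx h (e ⟨⟨u, b⟩, hmem⟩)
    simp only [Equiv.symm_apply_apply] at h5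
    rw [← h5]
    refine Finset.sum_congr rfl fun s _ => ?_
    simp only [pol, Finset.mul_sum, Finset.sum_mul]
    rw [Finset.sum_comm]
    refine Finset.sum_congr rfl fun i _ => Finset.sum_congr rfl fun a _ => ?_
    ring
  by_contra hx0
  have hne : x.support.Nonempty := Finsupp.support_nonempty_iff.2 hx0
  obtain ⟨g, hg, hgc⟩ := h2 Γ _ (Classical.decEq Γ) S x.support c hne (hF x.support)
  set τ : Γ → ℕ := fun s => (S.filter fun s' => g * s * s'⁻¹ ∈ x.support).card with hτ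
  have hτ1 : ∀ s ∈ S, 1 ≤ τ s := by
    intro s hs
    refine Finset.card_pos.2 ⟨s, Finset.mem_filter.2 ⟨hs, ?_⟩⟩
    rw [mul_inv_cancel_right]
    exact hg
  have hτ2 : ∀ s ∈ S, τ s ≤ S.card := fun s _ => Finset.card_filter_le _ _
  have hsum : n ≤ ∑ s ∈ S, ∑ u ∈ Finset.Icc (τ s) S.card, r u := by
    have : (n : ℝ) ≤ ((∑ s ∈ S, ∑ u ∈ Finset.Icc (τ s) S.card, r u : ℕ) : ℝ) := by
      rw [Nat.cast_sum]
      calc (n : ℝ) ≤ w * c := hn
        _ ≤ w * ∑ s ∈ S, 1 / (τ s : ℝ) := mul_le_mul_of_nonneg_left hgc (Nat.cast_nonneg _)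
        _ = ∑ s ∈ S, (w : ℝ) / τ s := by
            rw [Finset.mul_sum]
            exact Finset.sum_congr rfl fun s _ => by rw [mul_one_div]
        _ = _ := by
            refine Finset.sum_congr rfl fun s hs => ?_
            exact (hr (τ s) (Finset.mem_Icc.2 ⟨hτ1 s hs, hτ2 s hs⟩)).symm
    exact_mod_cast this
  have hz := V2 (x g) τ hτ1 hsum ?_
  · exact (Finsupp.mem_support_iff.1 hg) hz
  · intro s hs u hu a ha
    rw [Finset.mem_Icc] at hu
    have hu1 : u ∈ Finset.Icc 1 S.card := Finset.mem_Icc.2 ⟨(hτ1 s hs).trans hu.1, hu.2⟩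
    have h6 := V1 u hu1 (S.filter fun s' => g * s * s'⁻¹ ∈ x.support) (Finset.filter_subset _ _)
      hu.1 (fun s' a => pol (x (g * s * s'⁻¹)) (μ s' u a)) ?_ s ?_ a ha
    · rw [mul_inv_cancel_right] at h6
      exact h6
    · intro b hb
      rw [← key (g * s) u b hu1 hb]
      refine Finset.sum_subset (Finset.filter_subset _ _) fun s' hs' hn' => ?_
      have h7 : x (g * s * s'⁻¹) = 0 := by
        by_contra h8
        exact hn' (Finset.mem_filter.2 ⟨hs', Finsupp.mem_support_iff.2 h8⟩)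
      rw [h7]
      simp [pol_zero]
    · refine Finset.mem_filter.2 ⟨hs, ?_⟩
      rw [mul_inv_cancel_right]
      exact hg

end Pool.Agent.T5h70.SE.INJ
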