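import Pool.Agent.T5h70.SE.Stm

/-!
# LCL: double counting
-/

set_option autoImplicit false

namespace Pool.Agent.T5h70.SE.LCL

open Pool.Agent.T5h70.SE
open scoped Pointwise

universe u

theorem t_LCL : S_LCL.{u} := by
  intro Γ _ _ S F c hF hc
  by_contra hcon
  push Not at hcon
  have h1 : ∑ g ∈ F, ∑ s ∈ S, 1 / ((S.filter fun s' => g * s * s'⁻¹ ∈ F).card : ℝ) <
      c * F.card := by
    calc _ < ∑ _g ∈ F, c := Finset.sum_lt_sum_of_nonempty hF hcon
      _ = c * F.card := by rw [Finset.sum_const, nsmul_eq_mul, mul_comm]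
  have h2 : ∑ g ∈ F, ∑ s ∈ S, 1 / ((S.filter fun s' => g * s * s'⁻¹ ∈ F).card : ℝ) =
      ((F * S).card : ℝ) := by
    rw [← Finset.sum_product']
    have hmaps : ∀ x ∈ F ×ˢ S, x.1 * x.2 ∈ F * S := by
      intro x hx
      rw [Finset.mem_product] at hx
      exact Finset.mul_mem_mul hx.1 hx.2
    rw [← Finset.sum_fiberwise_of_maps_to hmaps]
    have h3 : ∀ h ∈ F * S, ∑ x ∈ (F ×ˢ S).filter (fun x => x.1 * x.2 = h),
        1 / ((S.filter fun s' => x.1 * x.2 * s'⁻¹ ∈ F).card : ℝ) = 1 := by
      intro h hh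
      have h4 : ∀ x ∈ (F ×ˢ S).filter (fun x => x.1 * x.2 = h),
          1 / ((S.filter fun s' => x.1 * x.2 * s'⁻¹ ∈ F).card : ℝ) =
          1 / ((S.filter fun s' => h * s'⁻¹ ∈ F).card : ℝ) := by
        intro x hx
        rw [(Finset.mem_filter.1 hx).2]
      rw [Finset.sum_congr rfl h4, Finset.sum_const, nsmul_eq_mul]
      have h5 : ((F ×ˢ S).filter (fun x => x.1 * x.2 = h)).card =
          (S.filter fun s' => h * s'⁻¹ ∈ F).card := by
        refine Finset.card_bij' (fun x _ => x.2) (fun s _ => (h * s⁻¹, s)) ?_ ?_ ?_ ?_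
        · intro x hx
          rw [Finset.mem_filter, Finset.mem_product] at hx
          rw [Finset.mem_filter, ← hx.2, mul_inv_cancel_right]
          exact ⟨hx.1.2, hx.1.1⟩
        · intro s hs
          rw [Finset.mem_filter] at hs
          rw [Finset.mem_filter, Finset.mem_product]
          exact ⟨⟨hs.2, hs.1⟩, inv_mul_cancel_right _ _⟩
        · intro x hx
          rw [Finset.mem_filter] at hx
          refine Prod.ext ?_ rfl
          rw [← hx.2]
          exact mul_inv_cancel_right _ _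
        · intro s _
          rfl
      rw [h5, mul_one_div, div_self]
      obtain ⟨g, hg, s, hs, hgs⟩ := Finset.mem_mul.1 hh
      have : 0 < (S.filter fun s' => h * s'⁻¹ ∈ F).card := by
        refine Finset.card_pos.2 ⟨s, Finset.mem_filter.2 ⟨hs, ?_⟩⟩
        rw [← hgs, mul_inv_cancel_right]
        exact hg
      exact_mod_cast this.ne'
    rw [Finset.sum_congr rfl h3, Finset.sum_const, nsmul_eq_mul, mul_one]
  linarith

end Pool.Agent.T5h70.SE.LCL
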