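import Pool.Agent.T5h70.SE.Stm

/-!
# LO: the lower bound for the entropy of a full shift
-/

set_option autoImplicit false

namespace Pool.Agent.T5h70.SE.LO

open Pool.Agent.T5h70.SE Filter Topology
open scoped ENNReal

universe u v

lemma almMul {Γ : Type u} [Group Γ] (Sig : SoficApprox Γ) (F : Finset Γ) (κ : ℝ) (hκ : 0 < κ) :
    ∀ᶠ i in atTop, 1 ≤ Sig.d i ∧ AlmMul F κ (Sig.σ i) := by
  have h1 : ∀ᶠ i in atTop, 1 ≤ Sig.d i := Sig.tends.eventually_ge_atTop 1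
  have h2 : ∀ s ∈ F, ∀ t ∈ F, ∀ᶠ i in atTop, 1 - κ <
      ((Finset.univ.filter fun j => Sig.σ i s (Sig.σ i t j) = Sig.σ i (s * t) j).card : ℝ) /
        Sig.d i := fun s _ t _ => (Sig.mul s t).eventually_const_lt (by linarith)
  have h3 : ∀ᶠ i in atTop, ∀ s ∈ F, ∀ t ∈ F, 1 - κ <
      ((Finset.univ.filter fun j => Sig.σ i s (Sig.σ i t j) = Sig.σ i (s * t) j).card : ℝ) /
        Sig.d i := by
    rw [Filter.eventually_all_finset]
    intro s hs
    rw [Filter.eventually_all_finset]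
    intro t ht
    exact h2 s hs t ht
  filter_upwards [h1, h3] with i hi h
  refine ⟨hi, fun s hs t ht => ?_⟩
  have hd : (0 : ℝ) < Sig.d i := by exact_mod_cast hi
  have h4 := h s hs t ht
  rw [lt_div_iff₀ hd] at h4
  have h5 : (Finset.univ.filter fun j => Sig.σ i s (Sig.σ i t j) = Sig.σ i (s * t) j).card +
      (Finset.univ.filter fun j => Sig.σ i s (Sig.σ i t j) ≠ Sig.σ i (s * t) j).card =
      Sig.d i := by
    have := Finset.card_filter_add_card_filter_not (s := (Finset.univ : Finset (Fin (Sig.d i))))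
      (fun j => Sig.σ i s (Sig.σ i t j) = Sig.σ i (s * t) j)
    rw [Finset.card_univ, Fintype.card_fin] at this
    exact this
  have h6 : ((Finset.univ.filter fun j => Sig.σ i s (Sig.σ i t j) = Sig.σ i (s * t) j).card : ℝ) +
      ((Finset.univ.filter fun j => Sig.σ i s (Sig.σ i t j) ≠ Sig.σ i (s * t) j).card : ℝ) =
      Sig.d i := by
    exact_mod_cast h5
  linarith

theorem t_LO (h : S_LOC.{u, v}) : S_LO.{u, v} := by
  intro Γ _ X _ _ 𝔸 _ _ c ρ Sig hc hρ hgen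
  obtain ⟨ε₀, hε₀, H⟩ := h Γ _ X _ _ 𝔸 ‹_› ‹_› c ρ hc hρ hgen
  unfold hS
  refine le_iSup₂_of_le ε₀ hε₀ (le_iInf fun F => le_iInf₂ fun δ hδ => ?_)
  refine le_of_forall_lt fun b hb => ?_
  obtain ⟨y, hy1, hy2⟩ := EReal.lt_iff_exists_real_btwn.1 hb
  have hy3 : y < Real.log (Fintype.card 𝔸) := by exact_mod_cast hy2
  refine lt_of_lt_of_le hy1 ?_
  obtain ⟨F', κ, hκ, H2⟩ := H F δ (Real.log (Fintype.card 𝔸) - y) hδ (by linarith)
  refine le_limsup_of_frequently_le (Eventually.frequently ?_) (by isBoundedDefault)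
  filter_upwards [almMul Sig F' κ hκ] with i hi
  obtain ⟨E, hE1, hE2, hE3⟩ := H2 (Sig.d i) (Sig.σ i) hi.1 hi.2
  have hd : (0 : ℝ) < Sig.d i := by exact_mod_cast hi.1
  have hEpos : (0 : ℝ) < E.card := lt_of_lt_of_le (Real.exp_pos _) hE3
  have h1 : ((E.card : ℕ∞)) ≤ sepCard ρ ε₀ (MapS ρ F δ (Sig.σ i)) :=
    le_iSup₂_of_le (f := fun (E : Finset (Fin (Sig.d i) → X))
      (_ : (∀ φ ∈ E, φ ∈ MapS ρ F δ (Sig.σ i)) ∧
        ∀ φ ∈ E, ∀ ψ ∈ E, φ ≠ ψ → ∃ j, ε₀ ≤ ρ (φ j) (ψ j)) => (E.card : ℕ∞)) E ⟨hE1, hE2⟩ le_rfl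
  have h2 : (ENNReal.ofReal (E.card : ℝ)) ≤
      ((sepCard ρ ε₀ (MapS ρ F δ (Sig.σ i)) : ℕ∞) : ℝ≥0∞) := by
    rw [ENNReal.ofReal_natCast]
    exact_mod_cast h1
  have h3 := ENNReal.log_le_log h2
  rw [ENNReal.log_ofReal_of_pos hEpos] at h3
  have h4 : y * Sig.d i ≤ Real.log E.card := by
    rw [Real.le_log_iff_exp_le hEpos]
    refine le_trans (le_of_eq ?_) hE3
    ring_nf
  rw [EReal.le_div_iff_mul_le (by exact_mod_cast hd) (EReal.coe_ne_top _)]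
  refine le_trans ?_ h3
  exact_mod_cast h4

end Pool.Agent.T5h70.SE.LO
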