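import Pool.Agent.T5h70.SE.Stm

/-!
# LOC: many separated microstates of a full shift
-/

set_option autoImplicit false

namespace Pool.Agent.T5h70.SE.LOC

open Pool.Agent.T5h70.SE
open scoped Pointwise

universe u v

theorem t_LOC (h1 : S_GEN.{u, v}) (h2 : S_UNI.{u, v}) (h3 : S_BND.{v}) : S_LOC.{u, v} := by
  classical
  intro Γ _ X _ _ 𝔸 _ _ c ρ hc hρ hgen
  obtain ⟨F₁, δ₁, hδ₁, hG⟩ := h1 Γ _ X _ _ 𝔸 c ρ hc hρ hgen
  obtain ⟨M, hM, hMb⟩ := h3 X _ ρ hc.comp hρ
  refine ⟨δ₁ / 3, by positivity, fun F δ η hδ hη => ?_⟩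
  set b : ℝ := min (δ / 2) (δ₁ / 3) with hb
  have hb0 : 0 < b := lt_min (by positivity) (by positivity)
  have hb1 : b ≤ δ / 2 := min_le_left _ _
  have hb2 : b ≤ δ₁ / 3 := min_le_right _ _
  obtain ⟨F₂, hU⟩ := h2 Γ _ X _ _ 𝔸 c ρ hc hρ b hb0
  set K : ℝ := (F₂.card : ℝ) * (F ∪ F₁).card + 1 with hK
  have hK0 : 0 < K := by positivity
  set A : ℝ := Real.log (Fintype.card 𝔸) with hA
  have hA0 : 0 ≤ A := Real.log_nonneg (by exact_mod_cast Fintype.card_pos)
  have hcard : (0 : ℝ) < Fintype.card 𝔸 := by exact_mod_cast Fintype.card_pos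
  refine ⟨F₂ ∪ (F ∪ F₁), min (δ ^ 2 / (2 * M ^ 2 * K)) (η / (K * (A + 1))),
    lt_min (by positivity) (by positivity), fun d σ hd hmul => ?_⟩
  set κ : ℝ := min (δ ^ 2 / (2 * M ^ 2 * K)) (η / (K * (A + 1))) with hκ
  have hκ1 : M ^ 2 * (K * κ) ≤ δ ^ 2 / 2 := by
    have : κ ≤ δ ^ 2 / (2 * M ^ 2 * K) := min_le_left _ _
    rw [le_div_iff₀ (by positivity)] at this
    linarith
  have hκ2 : K * κ * A ≤ η := by
    have h : κ ≤ η / (K * (A + 1)) := min_le_right _ _
    rw [le_div_iff₀ (by positivity)] at h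
    have hκ0 : 0 < κ := lt_min (by positivity) (by positivity)
    nlinarith [mul_pos hK0 hκ0]
  have hd0 : (0 : ℝ) < d := by exact_mod_cast hd
  -- the bad points
  set B : Finset (Fin d) := Finset.univ.filter fun j =>
    ¬ ∀ s ∈ F₂, ∀ t ∈ F ∪ F₁, σ s (σ t j) = σ (s * t) j with hB
  have hBc : (B.card : ℝ) ≤ K * κ * d := by
    have hsub : B ⊆ (F₂ ×ˢ (F ∪ F₁)).biUnion fun st =>
        Finset.univ.filter fun j => σ st.1 (σ st.2 j) ≠ σ (st.1 * st.2) j := by
      intro j hj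
      rw [hB, Finset.mem_filter] at hj
      have h := hj.2
      push Not at h
      obtain ⟨s, hs, t, ht, hst⟩ := h
      exact Finset.mem_biUnion.2 ⟨(s, t), Finset.mem_product.2 ⟨hs, ht⟩,
        Finset.mem_filter.2 ⟨Finset.mem_univ _, hst⟩⟩
    have h4 : (B.card : ℝ) ≤ ∑ st ∈ F₂ ×ˢ (F ∪ F₁),
        ((Finset.univ.filter fun j => σ st.1 (σ st.2 j) ≠ σ (st.1 * st.2) j).card : ℝ) := by
      exact_mod_cast (Finset.card_le_card hsub).trans Finset.card_biUnion_le
    have h5 : ∑ st ∈ F₂ ×ˢ (F ∪ F₁),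
        ((Finset.univ.filter fun j => σ st.1 (σ st.2 j) ≠ σ (st.1 * st.2) j).card : ℝ) ≤
        ∑ _st ∈ F₂ ×ˢ (F ∪ F₁), κ * d := by
      refine Finset.sum_le_sum fun st hst => ?_
      rw [Finset.mem_product] at hst
      exact hmul st.1 (Finset.mem_union_left _ hst.1) st.2 (Finset.mem_union_right _ hst.2)
    rw [Finset.sum_const, nsmul_eq_mul, Finset.card_product] at h5
    have hκ0 : 0 < κ := lt_min (by positivity) (by positivity)
    have h6 : 0 ≤ κ * d := by positivity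
    push_cast at h5
    nlinarith
  -- the microstates
  choose Φ hΦ using hc.bij.surjective
  have hΦ' : ∀ (f : Γ → 𝔸) (γ : Γ), c (γ • Φ f) = f γ := fun f γ => congrFun (hΦ f) γ
  set φ : (Fin d → 𝔸) → Fin d → X := fun a j => Φ fun γ => a (σ γ j) with hφ
  have hφc : ∀ a j (γ : Γ), c (γ • φ a j) = a (σ γ j) := fun a j γ => hΦ' _ γ
  have hgood : ∀ a j, j ∉ B → ∀ γ ∈ F ∪ F₁, ρ (φ a (σ γ j)) (γ • φ a j) < b := by
    intro a j hj γ hγ
    rw [hB, Finset.mem_filter, not_and, not_not] at hj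
    refine hU _ _ fun s hs => ?_
    rw [hφc, ← mul_smul, hφc, hj (Finset.mem_univ _) s hs γ hγ]
  have hmap : ∀ a, φ a ∈ MapS ρ F δ σ := by
    intro a γ hγ
    rw [Real.sqrt_le_left hδ.le, div_le_iff₀ hd0]
    have h4 : ∀ j, ρ (φ a (σ γ j)) (γ • φ a j) ^ 2 ≤ b ^ 2 + if j ∈ B then M ^ 2 else 0 := by
      intro j
      by_cases hj : j ∈ B
      · rw [if_pos hj]
        have := pow_le_pow_left₀ (hMb (φ a (σ γ j)) (γ • φ a j)).1
          (hMb (φ a (σ γ j)) (γ • φ a j)).2 2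
        nlinarith [sq_nonneg b]
      · rw [if_neg hj, add_zero]
        exact pow_le_pow_left₀ (hMb _ _).1 (hgood a j hj γ (Finset.mem_union_left _ hγ)).le 2
    refine (Finset.sum_le_sum fun j _ => h4 j).trans ?_
    rw [Finset.sum_add_distrib, Finset.sum_const, Finset.card_univ, Fintype.card_fin,
      nsmul_eq_mul, ← Finset.sum_filter, Finset.sum_const, nsmul_eq_mul]
    have h5 : (Finset.univ.filter fun j => j ∈ B) = B := by
      ext j
      simp
    rw [h5]
    have h6 : b ^ 2 ≤ δ ^ 2 / 4 := by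
      have := pow_le_pow_left₀ hb0.le hb1 2
      linarith [show (δ / 2) ^ 2 = δ ^ 2 / 4 by ring]
    have h7 : (B.card : ℝ) * M ^ 2 ≤ δ ^ 2 / 2 * d := by
      calc (B.card : ℝ) * M ^ 2 ≤ K * κ * d * M ^ 2 :=
            mul_le_mul_of_nonneg_right hBc (by positivity)
        _ = M ^ 2 * (K * κ) * d := by ring
        _ ≤ _ := mul_le_mul_of_nonneg_right hκ1 hd0.le
    nlinarith
  have hsep : ∀ a a' : Fin d → 𝔸, ∀ j, j ∉ B → a (σ 1 j) ≠ a' (σ 1 j) →
      ∃ j, δ₁ / 3 ≤ ρ (φ a j) (φ a' j) := by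
    intro a a' j hj hne
    have h4 : c (φ a j) ≠ c (φ a' j) := by
      have e1 := hφc a j 1
      have e2 := hφc a' j 1
      rw [one_smul] at e1 e2
      rw [e1, e2]
      exact hne
    obtain ⟨γ, hγ, hγ2⟩ := hG _ _ h4
    have g1 := hgood a j hj γ (Finset.mem_union_right _ hγ)
    have g2 := hgood a' j hj γ (Finset.mem_union_right _ hγ)
    refine ⟨σ γ j, ?_⟩
    have t1 := hρ.triangle (γ • φ a j) (φ a (σ γ j)) (γ • φ a' j)
    have t2 := hρ.triangle (φ a (σ γ j)) (φ a' (σ γ j)) (γ • φ a' j)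
    have t3 := hρ.comm (γ • φ a j) (φ a (σ γ j))
    linarith
  obtain ⟨a₀⟩ := ‹Nonempty 𝔸›
  set B' : Finset (Fin d) := B.image (σ 1) with hB'
  have hB'c : B'.card = B.card := Finset.card_image_of_injective _ (σ 1).injective
  set 𝒜 : Finset (Fin d → 𝔸) :=
    Fintype.piFinset fun j => if j ∈ B' then {a₀} else Finset.univ with h𝒜
  have hdist : ∀ a ∈ 𝒜, ∀ a' ∈ 𝒜, a ≠ a' → ∃ j, δ₁ / 3 ≤ ρ (φ a j) (φ a' j) := by
    intro a ha a' ha' hne
    rw [h𝒜, Fintype.mem_piFinset] at ha ha'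
    obtain ⟨j', hj'⟩ := Function.ne_iff.1 hne
    have hj2 : j' ∉ B' := by
      intro hmem
      have e1 := ha j'
      have e2 := ha' j'
      rw [if_pos hmem, Finset.mem_singleton] at e1 e2
      exact hj' (e1.trans e2.symm)
    refine hsep a a' ((σ 1).symm j') (fun hmem => hj2 ?_) ?_
    · rw [hB', Finset.mem_image]
      exact ⟨_, hmem, Equiv.apply_symm_apply _ _⟩
    · rw [Equiv.apply_symm_apply]
      exact hj'
  refine ⟨𝒜.image φ, ?_, ?_, ?_⟩
  · intro ψ hψ
    obtain ⟨a, _, rfl⟩ := Finset.mem_image.1 hψ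
    exact hmap a
  · intro ψ hψ ψ' hψ' hne
    obtain ⟨a, ha, rfl⟩ := Finset.mem_image.1 hψ
    obtain ⟨a', ha', rfl⟩ := Finset.mem_image.1 hψ'
    exact hdist a ha a' ha' fun h => hne (by rw [h])
  · rw [Finset.card_image_of_injOn]
    · have h4 : (𝒜.card : ℝ) = (Fintype.card 𝔸 : ℝ) ^ (d - B.card) := by
        rw [h𝒜, Fintype.card_piFinset]
        have h5 : ∀ j : Fin d, (if j ∈ B' then ({a₀} : Finset 𝔸) else Finset.univ).card =
            if j ∈ B' then 1 else Fintype.card 𝔸 := by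
          intro j
          split_ifs
          · exact Finset.card_singleton _
          · exact Finset.card_univ
        rw [Finset.prod_congr rfl fun j _ => h5 j, Finset.prod_ite, Finset.prod_const_one,
          one_mul, Finset.prod_const]
        have h6 : (Finset.univ.filter fun j : Fin d => j ∉ B').card = d - B.card := by
          rw [Finset.filter_not, Finset.card_sdiff_of_subset (Finset.filter_subset _ _),
            Finset.card_univ, Fintype.card_fin, ← hB'c]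
          congr 2
          ext j
          simp
        rw [h6]
        push_cast
        rfl
      have h8 : (Fintype.card 𝔸 : ℝ) ^ (d - B.card) = Real.exp (((d - B.card : ℕ) : ℝ) * A) := by
        rw [Real.exp_nat_mul, hA, Real.exp_log hcard]
      rw [h4, h8, Real.exp_le_exp,
        Nat.cast_sub ((Finset.card_le_univ B).trans (Fintype.card_fin d).le)]
      have h7 : (B.card : ℝ) * A ≤ η * d := by
        calc (B.card : ℝ) * A ≤ K * κ * d * A := mul_le_mul_of_nonneg_right hBc hA0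
          _ = K * κ * A * d := by ring
          _ ≤ _ := mul_le_mul_of_nonneg_right hκ2 hd0.le
      nlinarith
    · intro a ha a' ha' haa
      by_contra hne
      obtain ⟨j, hj⟩ := hdist a ha a' ha' hne
      rw [haa, hρ.self] at hj
      linarith

end Pool.Agent.T5h70.SE.LOC
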