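import Pool.Agent.T5h70.SE.Stm

set_option autoImplicit false

namespace Pool.Agent.T5h70.SE.MOD

open Pool.Agent.T5h70.SE

universe u v

/-- right multiplication by a matrix over the group algebra -/
noncomputable def mapf (Γ : Type u) [Group Γ] (p n m : ℕ) (S : Finset Γ)
    (M : Γ → Fin m → Fin n → ZMod p) :
    (Fin n → MonoidAlgebra (ZMod p) Γ) →ₗ[MonoidAlgebra ℤ Γ] (Fin m → MonoidAlgebra (ZMod p) Γ) where
  toFun x j := ∑ i, x i * ∑ s ∈ S, MonoidAlgebra.single s (M s j i)
  map_add' x y := by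
    funext j
    simp only [Pi.add_apply, add_mul, Finset.sum_add_distrib]
  map_smul' a x := by
    funext j
    change ∑ i, (MonoidAlgebra.mapRingHom Γ (Int.castRingHom (ZMod p)) a * x i) *
      ∑ s ∈ S, MonoidAlgebra.single s (M s j i) =
      MonoidAlgebra.mapRingHom Γ (Int.castRingHom (ZMod p)) a *
        ∑ i, x i * ∑ s ∈ S, MonoidAlgebra.single s (M s j i)
    rw [Finset.mul_sum]
    refine Finset.sum_congr rfl fun i _ => ?_
    rw [mul_assoc]

theorem mapf_coeff (Γ : Type u) [Group Γ] (p n m : ℕ) (S : Finset Γ)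
    (M : Γ → Fin m → Fin n → ZMod p) (x : Fin n → MonoidAlgebra (ZMod p) Γ) (j : Fin m) (h : Γ) :
    (mapf Γ p n m S M x j).coeff h = ∑ s ∈ S, ∑ i, M s j i * (x i).coeff (h * s⁻¹) := by
  change (∑ i, x i * ∑ s ∈ S, MonoidAlgebra.single s (M s j i)).coeff h = _
  rw [Finset.sum_comm]
  simp only [Finset.mul_sum, MonoidAlgebra.coeff_sum, Finsupp.coe_finsetSum, Finset.sum_apply,
    MonoidAlgebra.coeff_mul_single_apply]
  refine Finset.sum_congr rfl fun i _ => Finset.sum_congr rfl fun s _ => mul_comm _ _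

open Classical in
theorem t_MOD (h : S_INJ.{u}) : S_MOD.{u} := by
  intro Γ _ hΓ
  obtain ⟨p, hp, n, m, hmn, S, M, hinj⟩ := h Γ inferInstance hΓ
  refine ⟨p, hp, n, m, hmn, mapf Γ p n m S M, ?_⟩
  rw [injective_iff_map_eq_zero]
  intro x hx
  let y : Γ →₀ (Fin n → ZMod p) :=
    Finsupp.onFinset (Finset.univ.biUnion fun i => (x i).coeff.support) (fun g i => (x i).coeff g)
      (by
        intro g hg
        by_contra hcon
        apply hg
        funext i
        by_contra hi
        exact hcon (Finset.mem_biUnion.2 ⟨i, Finset.mem_univ _, Finsupp.mem_support_iff.2 hi⟩))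
  have hy : y = 0 := by
    apply hinj y
    intro g j
    have := congrArg (fun z : Fin m → MonoidAlgebra (ZMod p) Γ => (z j).coeff g) hx
    simp only [mapf_coeff] at this
    exact this
  funext i
  ext g
  have := DFunLike.congr_fun hy g
  exact congrFun this i

end Pool.Agent.T5h70.SE.MOD
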