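import Pool.Agent.T5h70.SE.Stm

/-!
# NN (helper38)
-/

set_option autoImplicit false
set_option linter.all false

namespace Pool.Agent.T5h70.SE.NN

open Pool.Agent.T5h70.SE Filter Topology
open scoped ENNReal

universe u v

theorem t_NN : S_NN.{u,v} := by
  classical
  intro Γ _ X _ _ ρ Sig x₀ hx hρ
  unfold hS
  refine le_iSup₂_of_le (1 : ℝ) one_pos ?_
  refine le_iInf fun F => le_iInf₂ fun δ hδ => ?_
  have h1 : ∀ i, (0 : EReal) ≤ ENNReal.log
      ((sepCard ρ 1 (MapS ρ F δ (Sig.σ i)) : ℕ∞) : ℝ≥0∞) / ((Sig.d i : ℝ) : EReal) := by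
    intro i
    apply EReal.div_nonneg
    · have h2 : (1 : ℕ∞) ≤ sepCard ρ 1 (MapS ρ F δ (Sig.σ i)) := by
        unfold sepCard
        refine le_iSup₂_of_le {fun _ => x₀} ⟨?_, ?_⟩ (by simp)
        · intro φ hφ
          rw [Finset.mem_singleton] at hφ
          subst hφ
          intro γ _
          simp only [hx, hρ.self]
          simp [hδ.le]
        · intro φ hφ ψ hψ hne
          rw [Finset.mem_singleton] at hφ hψ
          exact absurd (hφ.trans hψ.symm) hne
      have h3 : (1 : ℝ≥0∞) ≤ ((sepCard ρ 1 (MapS ρ F δ (Sig.σ i)) : ℕ∞) : ℝ≥0∞) := by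
        exact_mod_cast h2
      rw [← ENNReal.log_one]
      exact ENNReal.log_monotone h3
    · exact_mod_cast (Nat.cast_nonneg (α := ℝ) (Sig.d i))
  calc (0 : EReal) = limsup (fun _ : ℕ => (0 : EReal)) atTop := by simp
    _ ≤ _ := limsup_le_limsup (Eventually.of_forall h1)

end Pool.Agent.T5h70.SE.NN
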