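import Pool.Agent.T5h70.SE.Stm

/-!
# PMX (helper38)
-/

set_option autoImplicit false
set_option linter.all false

namespace Pool.Agent.T5h70.SE.PMX

open Pool.Agent.T5h70.SE Filter Topology

universe u v

theorem t_PMX : S_PMX.{u} := by
  classical
  intro Γ _ A _ _ _
  letI : MetricSpace (A → UnitAddCircle) := TopologicalSpace.metrizableSpaceMetric _
  obtain ⟨ev, hev⟩ : ∃ ev : Dual Γ A → A → UnitAddCircle,
    ev = fun χ a => (show A →+ UnitAddCircle from χ) a := ⟨_, rfl⟩
  have hinj : Function.Injective ev := by
    intro χ ψ h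
    rw [hev] at h
    exact DFunLike.coe_injective (F := A →+ UnitAddCircle) h
  have hcont : Continuous ev := by
    rw [hev]
    exact continuous_induced_dom
  refine ⟨fun χ ψ => dist (ev χ) (ev ψ), ⟨?_, ?_, ?_, ?_⟩, ?_⟩
  · intro x
    exact dist_self _
  · intro x y
    exact dist_comm _ _
  · intro x y z
    exact dist_triangle _ _ _
  · exact continuous_dist.comp ((hcont.comp continuous_fst).prodMk (hcont.comp continuous_snd))
  · intro x y hxy
    refine ⟨1, ?_⟩
    rw [one_smul, one_smul]
    exact dist_pos.2 fun h => hxy (hinj h)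

end Pool.Agent.T5h70.SE.PMX
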