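import Pool.Agent.T5h70.SE.Stm

/-!
# UNI (helper38)
-/

set_option autoImplicit false
set_option linter.all false

namespace Pool.Agent.T5h70.SE.UNI

open Pool.Agent.T5h70.SE

universe u v

theorem t_UNI : S_UNI.{u,v} := by
  classical
  intro Γ _ X _ _ 𝔸 c ρ hF hρ ε hε
  haveI := hF.comp
  have hK : IsCompact {z : X × X | ε ≤ ρ z.1 z.2} := by
    apply IsClosed.isCompact
    exact isClosed_le continuous_const hρ.cont
  have hU : ∀ γ : Γ, IsOpen {z : X × X | c (γ • z.1) ≠ c (γ • z.2)} := by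
    intro γ
    have hf : IsLocallyConstant fun z : X × X => (c (γ • z.1), c (γ • z.2)) :=
      (hF.loc.comp_continuous ((hF.act γ).comp continuous_fst)).prodMk
        (hF.loc.comp_continuous ((hF.act γ).comp continuous_snd))
    exact hf {p | p.1 ≠ p.2}
  have hcov : {z : X × X | ε ≤ ρ z.1 z.2} ⊆ ⋃ γ : Γ, {z : X × X | c (γ • z.1) ≠ c (γ • z.2)} := by
    rintro ⟨x, y⟩ hz
    have hxy : x ≠ y := by
      rintro rfl
      have h1 : ε ≤ ρ x x := hz
      rw [hρ.self] at h1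
      linarith
    by_contra hcon
    apply hxy
    apply hF.bij.1
    funext γ
    by_contra h2
    exact hcon (Set.mem_iUnion.2 ⟨γ, h2⟩)
  obtain ⟨t, ht⟩ := hK.elim_finite_subcover _ hU hcov
  refine ⟨t, ?_⟩
  intro x y hxy
  by_contra hcon
  push Not at hcon
  have hz : ((x, y) : X × X) ∈ {z : X × X | ε ≤ ρ z.1 z.2} := hcon
  obtain ⟨γ, hγ, hγ'⟩ := Set.mem_iUnion₂.1 (ht hz)
  exact hγ' (hxy γ hγ)

end Pool.Agent.T5h70.SE.UNI
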