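import Pool.Agent.T5h70.SE.Stm

/-!
# Project SE, task UP
-/

set_option autoImplicit false

namespace Pool.Agent.T5h70.SE.UP

open Pool.Agent.T5h70.SE
open Filter Topology
open scoped ENNReal

universe u v

theorem ev_almMul {Γ : Type u} [Group Γ] (Sig : SoficApprox Γ) (F : Finset Γ) {κ : ℝ}
    (hκ : 0 < κ) : ∀ᶠ i in atTop, AlmMul F κ (Sig.σ i) := by
  have hd : ∀ᶠ i in atTop, 1 ≤ Sig.d i := Sig.tends.eventually_ge_atTop 1
  unfold AlmMul
  rw [Filter.eventually_all_finset]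
  intro s _
  rw [Filter.eventually_all_finset]
  intro t _
  have h1 := (Sig.mul s t).eventually (lt_mem_nhds (show (1 : ℝ) - κ < 1 by linarith))
  filter_upwards [h1, hd] with i hi hdi
  have hdpos : (0 : ℝ) < Sig.d i := by exact_mod_cast hdi
  rw [lt_div_iff₀ hdpos] at hi
  have h2 := Finset.card_filter_add_card_filter_not (s := (Finset.univ : Finset (Fin (Sig.d i))))
    (fun j => Sig.σ i s (Sig.σ i t j) = Sig.σ i (s * t) j)
  rw [Finset.card_univ, Fintype.card_fin] at h2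
  have h3 : (((Finset.univ.filter fun j => Sig.σ i s (Sig.σ i t j) = Sig.σ i (s * t) j).card : ℝ)) +
      ((Finset.univ.filter fun j => ¬ (Sig.σ i s (Sig.σ i t j) = Sig.σ i (s * t) j)).card : ℝ) =
      Sig.d i := by exact_mod_cast h2
  have h4 : ((Finset.univ.filter fun j => Sig.σ i s (Sig.σ i t j) ≠ Sig.σ i (s * t) j).card : ℝ) =
      ((Finset.univ.filter fun j => ¬ (Sig.σ i s (Sig.σ i t j) = Sig.σ i (s * t) j)).card : ℝ) := rfl
  rw [h4]
  linarith

theorem t_UP (h : S_UPC.{u,v}) : S_UP.{u,v} := by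
  intro Γ hΓ X hT hA 𝔸 hfin hne c ρ Sig hfs hpm hgen
  unfold hS
  refine iSup₂_le fun ε hε => ?_
  refine le_of_forall_gt_imp_ge_of_dense fun a ha => ?_
  induction a with
  | bot => exact absurd ha (not_lt.2 bot_le)
  | top => exact le_top
  | coe a =>
    rw [EReal.coe_lt_coe_iff] at ha
    obtain ⟨F, δ, κ, hδ, hκ, hup⟩ := h Γ hΓ X hT hA 𝔸 hfin hne c ρ hfs hpm hgen ε
      (a - Real.log (Fintype.card 𝔸)) hε (by linarith)
    refine (iInf_le _ F).trans ((iInf₂_le δ hδ).trans ?_)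
    refine Filter.limsup_le_of_le (by isBoundedDefault) ?_
    filter_upwards [ev_almMul Sig F hκ, Sig.tends.eventually_ge_atTop 1] with i hi hdi
    have hdpos : (0 : ℝ) < Sig.d i := by exact_mod_cast hdi
    have h1 : sepCard ρ ε (MapS ρ F δ (Sig.σ i)) ≤ ((⌊Real.exp (a * Sig.d i)⌋₊ : ℕ) : ℕ∞) := by
      unfold sepCard
      refine iSup₂_le fun E hE => ?_
      have h2 := hup (Sig.d i) (Sig.σ i) hdi hi E hE.1 hE.2
      have e1 : Real.log (Fintype.card 𝔸) + (a - Real.log (Fintype.card 𝔸)) = a := by ring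
      rw [e1] at h2
      exact Nat.cast_le.2 (Nat.le_floor h2)
    have h2 : ((sepCard ρ ε (MapS ρ F δ (Sig.σ i)) : ℕ∞) : ℝ≥0∞) ≤
        ENNReal.ofReal (Real.exp (a * Sig.d i)) := by
      refine (ENat.toENNReal_mono h1).trans ?_
      rw [ENat.toENNReal_coe, ← ENNReal.ofReal_natCast]
      exact ENNReal.ofReal_le_ofReal (Nat.floor_le (Real.exp_pos _).le)
    have h3 := ENNReal.log_monotone h2
    rw [ENNReal.log_ofReal_of_pos (Real.exp_pos _), Real.log_exp] at h3
    have h4 := EReal.div_le_div_right_of_nonneg (c := ((Sig.d i : ℝ) : EReal))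
      (EReal.coe_nonneg.2 hdpos.le) h3
    refine h4.trans (le_of_eq ?_)
    rw [← EReal.coe_div, mul_div_cancel_right₀ _ hdpos.ne']

end Pool.Agent.T5h70.SE.UP
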