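import Pool.Agent.T5h70.SE.Stm

/-!
# Project SE, task UPC
-/

set_option autoImplicit false

namespace Pool.Agent.T5h70.SE.UPC

open Pool.Agent.T5h70.SE
open scoped Pointwise

universe u v

open Classical in
/-- the bad set of a map -/
noncomputable def bad {Γ : Type u} [Group Γ] {X : Type v} [MulAction Γ X] (ρ : X → X → ℝ)
    (b : ℝ) (F₀ F₁ : Finset Γ) {d : ℕ} (σ : Γ → Equiv.Perm (Fin d)) (φ : Fin d → X) :
    Finset (Fin d) :=
  (F₀ ×ˢ F₁).biUnion fun p =>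
    ((Finset.univ.filter fun j => b ≤ ρ (φ (σ p.2 (σ p.1 j))) (p.2 • φ (σ p.1 j))) ∪
      (Finset.univ.filter fun j => b ≤ ρ (φ (σ (p.2 * p.1) j)) ((p.2 * p.1) • φ j))) ∪
      (Finset.univ.filter fun j => σ p.2 (σ p.1 j) ≠ σ (p.2 * p.1) j)

theorem bad_card (h5 : S_BAD.{u, v}) {Γ : Type u} [hG : Group Γ] {X : Type v} [hX : MulAction Γ X]
    {ρ : X → X → ℝ} (hnn : ∀ x y, 0 ≤ ρ x y) {b : ℝ} (hb : 0 < b) {F₀ F₁ F : Finset Γ}
    (hF₀ : F₀ ⊆ F) (hF₁ : F₁ ⊆ F) (hF : ∀ x ∈ F₁, ∀ y ∈ F₀, x * y ∈ F) {d : ℕ}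
    {σ : Γ → Equiv.Perm (Fin d)} {κ δ : ℝ} (hσ : AlmMul F κ σ) {φ : Fin d → X}
    (hφ : φ ∈ MapS ρ F δ σ) :
    ((bad ρ b F₀ F₁ σ φ).card : ℝ) ≤
      (F₀.card : ℝ) * F₁.card * (2 * (δ ^ 2 / b ^ 2) + κ) * d := by
  classical
  have hBAD := h5 Γ hG X hX ρ F δ b d σ φ hnn hb hφ
  have h1 : ∀ p ∈ F₀ ×ˢ F₁,
      ((((Finset.univ.filter fun j => b ≤ ρ (φ (σ p.2 (σ p.1 j))) (p.2 • φ (σ p.1 j))) ∪
      (Finset.univ.filter fun j => b ≤ ρ (φ (σ (p.2 * p.1) j)) ((p.2 * p.1) • φ j))) ∪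
      (Finset.univ.filter fun j => σ p.2 (σ p.1 j) ≠ σ (p.2 * p.1) j)).card : ℝ) ≤
        (2 * (δ ^ 2 / b ^ 2) + κ) * d := by
    intro p hp
    rw [Finset.mem_product] at hp
    have e1 : ((Finset.univ.filter fun j => b ≤ ρ (φ (σ p.2 (σ p.1 j)))
        (p.2 • φ (σ p.1 j))).card : ℝ) ≤ δ ^ 2 / b ^ 2 * d := by
      refine le_trans (le_of_eq ?_) (hBAD p.2 (hF₁ hp.2))
      norm_cast
      refine Finset.card_bij (fun j _ => σ p.1 j) ?_ ?_ ?_
      · intro j hj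
        simpa using hj
      · intro j _ k _ hjk
        exact (σ p.1).injective hjk
      · intro j hj
        refine ⟨(σ p.1).symm j, ?_, by simp⟩
        simpa using hj
    have e2 := hBAD (p.2 * p.1) (hF _ hp.2 _ hp.1)
    have e3 := hσ p.2 (hF₁ hp.2) p.1 (hF₀ hp.1)
    have e4 := Finset.card_union_le
      ((Finset.univ.filter fun j => b ≤ ρ (φ (σ p.2 (σ p.1 j))) (p.2 • φ (σ p.1 j))) ∪
      (Finset.univ.filter fun j => b ≤ ρ (φ (σ (p.2 * p.1) j)) ((p.2 * p.1) • φ j)))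
      (Finset.univ.filter fun j => σ p.2 (σ p.1 j) ≠ σ (p.2 * p.1) j)
    have e5 := Finset.card_union_le
      (Finset.univ.filter fun j => b ≤ ρ (φ (σ p.2 (σ p.1 j))) (p.2 • φ (σ p.1 j)))
      (Finset.univ.filter fun j => b ≤ ρ (φ (σ (p.2 * p.1) j)) ((p.2 * p.1) • φ j))
    have e6 := e4.trans (Nat.add_le_add_right e5 _)
    have e7 := (Nat.cast_le (α := ℝ)).2 e6
    push_cast at e7
    have e3' : ((Finset.univ.filter fun j => σ p.2 (σ p.1 j) ≠ σ (p.2 * p.1) j).card : ℝ) ≤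
        κ * d := by
      convert e3
    have e2' : ((Finset.univ.filter fun j => b ≤ ρ (φ (σ (p.2 * p.1) j))
        ((p.2 * p.1) • φ j)).card : ℝ) ≤ δ ^ 2 / b ^ 2 * d := by
      convert e2
    nlinarith
  unfold bad
  refine le_trans (Nat.cast_le.2 Finset.card_biUnion_le) ?_
  push_cast
  refine le_trans (Finset.sum_le_sum h1) ?_
  rw [Finset.sum_const, Finset.card_product, nsmul_eq_mul]
  push_cast
  exact le_of_eq (by ring)

theorem t_UPC (h1 : S_GEN.{u,v}) (h2 : S_UNI.{u,v}) (h3 : S_BND.{v}) (h4 : S_CNT)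
    (h5 : S_BAD.{u,v}) : S_UPC.{u,v} := by
  classical
  intro Γ hΓ X hT hA 𝔸 hfin hne c ρ hfs hpm hgen ε η hε hη
  obtain ⟨M, hM, hMb⟩ := h3 X hT ρ hfs.comp hpm
  have hnn : ∀ x y, 0 ≤ ρ x y := fun x y => (hMb x y).1
  obtain ⟨F₀, hF₀⟩ := h2 Γ hΓ X hT hA 𝔸 c ρ hfs hpm ε hε
  obtain ⟨F₁, δ₁, hδ₁, hF₁⟩ := h1 Γ hΓ X hT hA 𝔸 c ρ hfs hpm hgen
  obtain ⟨κ₀, hκ₀, hcnt⟩ := h4 (η / 2) (by positivity)
  set L : ℝ := Real.log (Fintype.card 𝔸) with hL
  have hcard : 1 ≤ Fintype.card 𝔸 := Fintype.card_pos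
  have hL0 : 0 ≤ L := Real.log_nonneg (by exact_mod_cast hcard)
  -- the bound of the bad proportion
  set κ' : ℝ := min κ₀ (η / 2 / ((F₀.card : ℝ) * L + 1)) with hκ'
  have hden : 0 < (F₀.card : ℝ) * L + 1 := by positivity
  have hκ'pos : 0 < κ' := lt_min hκ₀ (by positivity)
  have hκ'1 : κ' ≤ κ₀ := min_le_left _ _
  have hκ'2 : (F₀.card : ℝ) * L * κ' ≤ η / 2 := by
    have e1 : κ' * ((F₀.card : ℝ) * L + 1) ≤ η / 2 := by
      rw [← le_div_iff₀ hden]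
      exact min_le_right _ _
    nlinarith
  set A : ℝ := (F₀.card : ℝ) * F₁.card + 1 with hAdef
  have hApos : 0 < A := by positivity
  set κ : ℝ := κ' / (2 * A) with hκ
  have hκpos : 0 < κ := by positivity
  set b : ℝ := δ₁ / 2 with hb
  have hbpos : 0 < b := by positivity
  set δ : ℝ := b * √(κ' / (4 * A)) with hδ
  have hδpos : 0 < δ := mul_pos hbpos (Real.sqrt_pos.2 (by positivity))
  have hδ2 : δ ^ 2 / b ^ 2 = κ' / (4 * A) := by
    rw [hδ, mul_pow, Real.sq_sqrt (by positivity), mul_comm, mul_div_assoc,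
      div_self (by positivity), mul_one]
  have htot : (F₀.card : ℝ) * F₁.card * (2 * (δ ^ 2 / b ^ 2) + κ) ≤ κ' := by
    rw [hδ2, hκ]
    have e1 : 2 * (κ' / (4 * A)) + κ' / (2 * A) = κ' / A := by
      field_simp
      ring
    rw [e1, mul_div_assoc', div_le_iff₀ hApos]
    nlinarith
  set F : Finset Γ := F₁ * F₀ ∪ F₁ ∪ F₀ with hF
  have hFF₀ : F₀ ⊆ F := Finset.subset_union_right
  have hFF₁ : F₁ ⊆ F := Finset.subset_union_right.trans Finset.subset_union_left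
  have hFm : ∀ x ∈ F₁, ∀ y ∈ F₀, x * y ∈ F := fun x hx y hy =>
    Finset.mem_union_left _ (Finset.mem_union_left _ (Finset.mul_mem_mul hx hy))
  refine ⟨F, δ, κ, hδpos, hκpos, ?_⟩
  intro d σ hd hσ E hE hsep
  have hbc : ∀ φ ∈ E, ((bad ρ b F₀ F₁ σ φ).card : ℝ) ≤ κ' * d := fun φ hφ =>
    (bad_card h5 hnn hbpos hFF₀ hFF₁ hFm hσ (hE φ hφ)).trans
      (mul_le_mul_of_nonneg_right htot (Nat.cast_nonneg _))
  -- good points
  have hgood : ∀ φ : Fin d → X, ∀ j, j ∉ bad ρ b F₀ F₁ σ φ → ∀ γ ∈ F₀,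
      c (γ • φ j) = c (φ (σ γ j)) := by
    intro φ j hj γ hγ
    by_contra hne'
    obtain ⟨γ', hγ', hle⟩ := hF₁ _ _ (fun h => hne' h)
    apply hj
    unfold bad
    rw [Finset.mem_biUnion]
    refine ⟨(γ, γ'), Finset.mem_product.2 ⟨hγ, hγ'⟩, ?_⟩
    rw [Finset.mem_union, Finset.mem_union, Finset.mem_filter, Finset.mem_filter,
      Finset.mem_filter]
    by_contra hcon
    push Not at hcon
    obtain ⟨⟨c1, c2⟩, c3⟩ := hcon
    have c1' := c1 (Finset.mem_univ _)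
    have c2' := c2 (Finset.mem_univ _)
    have c3' := c3 (Finset.mem_univ _)
    dsimp only at c1' c2' c3'
    rw [← mul_smul] at hle
    have t1 := hpm.triangle ((γ' * γ) • φ j) (φ (σ (γ' * γ) j)) (γ' • φ (σ γ j))
    rw [hpm.comm ((γ' * γ) • φ j) (φ (σ (γ' * γ) j))] at t1
    rw [c3'] at c1'
    linarith [hb]
  -- the number of maps with a given bad set
  set N : ℕ := ⌊κ' * d⌋₊ with hN
  have hfib : ∀ B ∈ E.image (bad ρ b F₀ F₁ σ),
      (E.filter fun φ => bad ρ b F₀ F₁ σ φ = B).card ≤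
        (Fintype.card 𝔸) ^ (d + F₀.card * N) := by
    intro B hB
    rw [Finset.mem_image] at hB
    obtain ⟨φ₀, hφ₀, rfl⟩ := hB
    set B := bad ρ b F₀ F₁ σ φ₀ with hBdef
    have hBN : B.card ≤ N := Nat.le_floor (hbc φ₀ hφ₀)
    let f : (Fin d → X) → (Fin d → 𝔸) × ((F₀ ×ˢ B : Finset (Γ × Fin d)) → 𝔸) := fun φ =>
      (fun j => c (φ j), fun p => c (p.1.1 • φ p.1.2))
    have hinj : Set.InjOn f (E.filter fun φ => bad ρ b F₀ F₁ σ φ = B : Finset (Fin d → X)) := by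
      intro φ hφ ψ hψ hfe
      rw [Finset.mem_coe, Finset.mem_filter] at hφ hψ
      by_contra hne'
      obtain ⟨j, hj⟩ := hsep φ hφ.1 ψ hψ.1 hne'
      refine absurd hj (not_le.2 (hF₀ _ _ fun γ hγ => ?_))
      by_cases hjB : j ∈ B
      · have := congrFun (congrArg Prod.snd hfe) ⟨(γ, j), Finset.mem_product.2 ⟨hγ, hjB⟩⟩
        exact this
      · rw [hgood φ j (by rw [hφ.2]; exact hjB) γ hγ, hgood ψ j (by rw [hψ.2]; exact hjB) γ hγ]
        exact congrFun (congrArg Prod.fst hfe) (σ γ j)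
    have hle := Finset.card_le_card_of_injOn (s := E.filter fun φ => bad ρ b F₀ F₁ σ φ = B)
      (t := Finset.univ) f (fun _ _ => Finset.mem_coe.2 (Finset.mem_univ _)) hinj
    refine hle.trans ?_
    rw [Finset.card_univ, Fintype.card_prod, Fintype.card_fun, Fintype.card_fun, Fintype.card_fin,
      Fintype.card_coe, Finset.card_product, ← pow_add]
    exact Nat.pow_le_pow_right hcard (Nat.add_le_add_left (Nat.mul_le_mul_left _ hBN) _)
  have hcc := Finset.card_le_mul_card_image (f := bad ρ b F₀ F₁ σ) E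
    ((Fintype.card 𝔸) ^ (d + F₀.card * N)) hfib
  have himg : ((E.image (bad ρ b F₀ F₁ σ)).card : ℝ) ≤ Real.exp (η / 2 * d) := by
    refine le_trans ?_ (hcnt d)
    norm_cast
    refine Finset.card_le_card ?_
    intro B hB
    rw [Finset.mem_image] at hB
    obtain ⟨φ, hφ, rfl⟩ := hB
    rw [Finset.mem_filter]
    exact ⟨Finset.mem_univ _, (hbc φ hφ).trans
      (mul_le_mul_of_nonneg_right hκ'1 (Nat.cast_nonneg _))⟩
  have hpow : (((Fintype.card 𝔸) ^ (d + F₀.card * N) : ℕ) : ℝ) ≤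
      Real.exp ((L + η / 2) * d) := by
    have e1 : (((Fintype.card 𝔸) ^ (d + F₀.card * N) : ℕ) : ℝ) =
        Real.exp (L * ((d : ℝ) + F₀.card * N)) := by
      have e0 : (d : ℝ) + F₀.card * N = ((d + F₀.card * N : ℕ) : ℝ) := by push_cast; ring
      rw [e0, mul_comm L, Real.exp_nat_mul, hL, Real.exp_log (by exact_mod_cast hcard),
        Nat.cast_pow]
    rw [e1, Real.exp_le_exp]
    have e2 : (N : ℝ) ≤ κ' * d := Nat.floor_le (by positivity)
    have e3 : L * (F₀.card * N) ≤ L * (F₀.card * (κ' * d)) := by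
      gcongr
    have e4 : (F₀.card : ℝ) * L * κ' * d ≤ η / 2 * d :=
      mul_le_mul_of_nonneg_right hκ'2 (Nat.cast_nonneg _)
    nlinarith
  calc (E.card : ℝ) ≤ (((Fintype.card 𝔸) ^ (d + F₀.card * N) *
        (E.image (bad ρ b F₀ F₁ σ)).card : ℕ) : ℝ) := Nat.cast_le.2 hcc
    _ = (((Fintype.card 𝔸) ^ (d + F₀.card * N) : ℕ) : ℝ) *
        ((E.image (bad ρ b F₀ F₁ σ)).card : ℝ) := by push_cast; ring
    _ ≤ Real.exp ((L + η / 2) * d) * Real.exp (η / 2 * d) :=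
        mul_le_mul hpow himg (Nat.cast_nonneg _) (Real.exp_pos _).le
    _ = Real.exp ((L + η) * d) := by
        rw [← Real.exp_add]
        ring_nf

end Pool.Agent.T5h70.SE.UPC
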