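import Pool.Agent.T5h70.SE.Stm

/-! Task VDM of project SE. -/

set_option autoImplicit false

namespace Pool.Agent.T5h70.SE

open Filter Topology Polynomial
open scoped ENNReal Pointwise

universe u

theorem t_VDM : S_VDM.{u} := by
  intro ι S _ k n r
  classical
  obtain ⟨R, hR⟩ : ∃ R : ℕ, ∀ u ∈ Finset.Icc 1 k, r u ≤ R :=
    ⟨(Finset.Icc 1 k).sup r, fun u hu => Finset.le_sup hu⟩
  let XX : Finset (ι × ℕ × ℕ) := S ×ˢ (Finset.Icc 1 k ×ˢ Finset.range R)
  have mXX : ∀ s u a, s ∈ S → u ∈ Finset.Icc 1 k → a < r u → (s, u, a) ∈ XX := by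
    intro s u a hs hu ha
    rw [Finset.mem_product, Finset.mem_product]
    exact ⟨hs, hu, Finset.mem_range.2 (lt_of_lt_of_le ha (hR u hu))⟩
  obtain ⟨p, hpN, hp⟩ := Nat.exists_infinite_primes (XX.card + 1)
  have hpf : Fact p.Prime := ⟨hp⟩
  let ν : ι → ℕ → ℕ → ZMod p := fun s u a =>
    if h : (s, u, a) ∈ XX then (((XX.equivFin ⟨(s, u, a), h⟩ : Fin XX.card) : ℕ) : ZMod p) else 0
  have hν : ∀ x ∈ XX, ∀ y ∈ XX, ν x.1 x.2.1 x.2.2 = ν y.1 y.2.1 y.2.2 → x = y := by
    rintro ⟨s, u, a⟩ hx ⟨s', u', a'⟩ hy h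
    have e1 : ν s u a = (((XX.equivFin ⟨(s, u, a), hx⟩ : Fin XX.card) : ℕ) : ZMod p) := dif_pos hx
    have e2 : ν s' u' a' = (((XX.equivFin ⟨(s', u', a'), hy⟩ : Fin XX.card) : ℕ) : ZMod p) :=
      dif_pos hy
    simp only at h
    rw [e1, e2, ZMod.natCast_eq_natCast_iff'] at h
    rw [Nat.mod_eq_of_lt (lt_trans (Fin.is_lt _) (by omega)),
      Nat.mod_eq_of_lt (lt_trans (Fin.is_lt _) (by omega))] at h
    have h2 := XX.equivFin.injective (Fin.ext h)
    exact congrArg Subtype.val h2
  refine ⟨p, hpf, ν, ν, ?_, ?_⟩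
  · intro u hu T hTS hTu y hy s hs a ha
    let I : Finset (ι × ℕ) := T ×ˢ Finset.range (r u)
    have hIc : I.card ≤ u * r u := by
      rw [Finset.card_product, Finset.card_range]
      exact Nat.mul_le_mul_right _ hTu
    let e := I.equivFin
    have hmI : ∀ j, (e.symm j).1.1 ∈ T ∧ (e.symm j).1.2 < r u := by
      intro j
      have := (e.symm j).2
      rw [Finset.mem_product] at this
      exact ⟨this.1, Finset.mem_range.1 this.2⟩
    have key := Matrix.eq_zero_of_forall_pow_sum_mul_pow_eq_zero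
      (f := fun j => ν (e.symm j).1.1 u (e.symm j).1.2) (v := fun j => y (e.symm j).1.1 (e.symm j).1.2)
      (by
        intro j j' h
        have h1 := hν _ (mXX _ u _ (hTS (hmI j).1) hu (hmI j).2) _
          (mXX _ u _ (hTS (hmI j').1) hu (hmI j').2) h
        have h2 : (e.symm j).1 = (e.symm j').1 := by
          simp only [Prod.mk.injEq, true_and] at h1
          exact Prod.ext h1.1 h1.2
        exact e.symm.injective (Subtype.ext h2))
      (by
        intro i
        have h1 := hy i (lt_of_lt_of_le i.2 hIc)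
        rw [← Finset.sum_product' (s := T) (t := Finset.range (r u))
          (f := fun s a => ν s u a ^ (i : ℕ) * y s a)] at h1
        rw [← h1, ← Finset.sum_coe_sort (T ×ˢ Finset.range (r u))
          (fun x => ν x.1 u x.2 ^ (i : ℕ) * y x.1 x.2)]
        rw [← Equiv.sum_comp e.symm]
        exact Finset.sum_congr rfl fun j _ => mul_comm _ _)
    have hsa : (s, a) ∈ I := Finset.mem_product.2 ⟨hs, Finset.mem_range.2 ha⟩
    have h3 := congrFun key (e ⟨(s, a), hsa⟩)
    simpa using h3
  · intro v τ hτ hn hv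
    let J : Finset (ι × ℕ × ℕ) := XX.filter fun x => x.2.1 ∈ Finset.Icc (τ x.1) k ∧ x.2.2 < r x.2.1
    have hJ : ∑ s ∈ S, ∑ u ∈ Finset.Icc (τ s) k, r u ≤ J.card := by
      have e1 : ∑ s ∈ S, ∑ u ∈ Finset.Icc (τ s) k, r u =
          (S.sigma fun s => (Finset.Icc (τ s) k).sigma fun u => Finset.range (r u)).card := by
        rw [Finset.card_sigma]
        refine Finset.sum_congr rfl fun s _ => ?_
        rw [Finset.card_sigma]
        exact Finset.sum_congr rfl fun u _ => (Finset.card_range _).symm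
      rw [e1]
      apply Finset.card_le_card_of_injOn (fun x => (x.1, x.2.1, x.2.2))
      · rintro ⟨s, u, a⟩ hx
        rw [Finset.mem_coe, Finset.mem_sigma, Finset.mem_sigma, Finset.mem_range] at hx
        rw [Finset.mem_coe, Finset.mem_filter]
        refine ⟨mXX s u a hx.1 ?_ hx.2.2, hx.2.1, hx.2.2⟩
        have h1 := Finset.mem_Icc.1 hx.2.1
        exact Finset.mem_Icc.2 ⟨(hτ s hx.1).trans h1.1, h1.2⟩
      · rintro ⟨s, u, a⟩ _ ⟨s', u', a'⟩ _ h
        simp only [Prod.mk.injEq] at h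
        obtain ⟨rfl, rfl, rfl⟩ := h
        rfl
    let P : (ZMod p)[X] := ∑ i : Fin n, C (v i) * X ^ (i : ℕ)
    have hP : P = 0 := by
      apply Polynomial.eq_zero_of_degree_lt_of_eval_finset_eq_zero
        (J.image fun x => ν x.1 x.2.1 x.2.2)
      · rw [Finset.card_image_of_injOn]
        · refine lt_of_lt_of_le (Polynomial.degree_sum_fin_lt v) ?_
          exact_mod_cast hn.trans hJ
        · intro x hx y hy h
          exact hν x (Finset.mem_filter.1 hx).1 y (Finset.mem_filter.1 hy).1 h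
      · intro z hz
        obtain ⟨x, hx, rfl⟩ := Finset.mem_image.1 hz
        obtain ⟨hx1, hx2, hx3⟩ := Finset.mem_filter.1 hx
        have h1 := hv x.1 (Finset.mem_product.1 hx1).1 x.2.1 hx2 x.2.2 hx3
        rw [← h1]
        simp [P, pol, eval_finsetSum]
    funext i
    have h1 : P.coeff i = v i := by
      simp only [P, finsetSum_coeff, coeff_C_mul, coeff_X_pow]
      rw [Finset.sum_eq_single i]
      · simp
      · intro j _ hj
        rw [if_neg (fun h => hj (Fin.ext h.symm)), mul_zero]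
      · intro h
        exact absurd (Finset.mem_univ _) h
    rw [← h1, hP, coeff_zero]
    rfl

end Pool.Agent.T5h70.SE
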