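import Pool.Agent.T5h70.SE.Str
import Pool.Agent.T5h70.SE.T_GEN
import Pool.Agent.T5h70.SE.T_UNI
import Pool.Agent.T5h70.SE.T_BND
import Pool.Agent.T5h70.SE.T_BAD
import Pool.Agent.T5h70.SE.T_CNT
import Pool.Agent.T5h70.SE.T_UPC
import Pool.Agent.T5h70.SE.T_UP
import Pool.Agent.T5h70.SE.T_LOC
import Pool.Agent.T5h70.SE.T_LO
import Pool.Agent.T5h70.SE.T_NN
import Pool.Agent.T5h70.SE.T_PMX
import Pool.Agent.T5h70.SE.T_LCL
import Pool.Agent.T5h70.SE.T_PAR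
import Pool.Agent.T5h70.SE.T_EXP
import Pool.Agent.T5h70.SE.T_VDM
import Pool.Agent.T5h70.SE.T_INJ
import Pool.Agent.T5h70.SE.T_MOD
import Pool.Agent.T5h70.SE.T_DUA

/-! Project SE: assembly. -/

set_option autoImplicit false

namespace Pool.Agent.T5h70.SE

universe u v

theorem s_UP : S_UP.{u, v} :=
  UP.t_UP (UPC.t_UPC GEN.t_GEN UNI.t_UNI BND.t_BND CNT.t_CNT BAD.t_BAD)

theorem s_LO : S_LO.{u, v} :=
  LO.t_LO (LOC.t_LOC GEN.t_GEN UNI.t_UNI BND.t_BND)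

theorem s_MOD : S_MOD.{u} :=
  MOD.t_MOD (INJ.t_INJ EXP.t_EXP LCL.t_LCL PAR.t_PAR t_VDM)

end Pool.Agent.T5h70.SE
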