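import Mathlib

/-!
# Project SE: failure of the addition formula for sofic entropy, definitions
-/

set_option autoImplicit false

namespace Pool.Agent.T5h70.SE

open Filter Topology
open scoped ENNReal Pointwise

universe u v

/-- amenability (Følner's condition) -/
def Amenable (Γ : Type u) [Group Γ] : Prop :=
  open Classical in
  ∀ (S : Finset Γ) (ε : ℝ), 0 < ε → ∃ F : Finset Γ, F.Nonempty ∧
    ∀ s ∈ S, (((F.image fun g => s * g) \ F).card : ℝ) ≤ ε * F.card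

/-- a sofic approximation of `Γ` -/
structure SoficApprox (Γ : Type u) [Group Γ] where
  d : ℕ → ℕ
  σ : (i : ℕ) → Γ → Equiv.Perm (Fin (d i))
  tends : Tendsto d atTop atTop
  mul : ∀ s t : Γ, Tendsto (fun i =>
    ((Finset.univ.filter fun j => σ i s (σ i t j) = σ i (s * t) j).card : ℝ) / d i) atTop (𝓝 1)
  free : ∀ s t : Γ, s ≠ t → Tendsto (fun i =>
    ((Finset.univ.filter fun j => σ i s j ≠ σ i t j).card : ℝ) / d i) atTop (𝓝 1)

section entropy

variable {Γ : Type u} [Group Γ] {X : Type v}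

/-- a continuous pseudometric -/
structure IsPM [TopologicalSpace X] (ρ : X → X → ℝ) : Prop where
  self : ∀ x, ρ x x = 0
  comm : ∀ x y, ρ x y = ρ y x
  triangle : ∀ x y z, ρ x z ≤ ρ x y + ρ y z
  cont : Continuous fun z : X × X => ρ z.1 z.2

/-- dynamically generating -/
def Generating (Γ : Type u) [Group Γ] [MulAction Γ X] (ρ : X → X → ℝ) : Prop :=
  ∀ x y, x ≠ y → ∃ γ : Γ, 0 < ρ (γ • x) (γ • y)

/-- `Map(ρ, F, δ, σ)` -/
def MapS [MulAction Γ X] (ρ : X → X → ℝ) (F : Finset Γ) (δ : ℝ) {d : ℕ}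
    (σ : Γ → Equiv.Perm (Fin d)) : Set (Fin d → X) :=
  {φ | ∀ γ ∈ F, √((∑ j, ρ (φ (σ γ j)) (γ • φ j) ^ 2) / d) ≤ δ}

/-- `N_ε(Y, ρ_∞)`: the largest cardinality of an `ε`-separated subset of `Y` -/
noncomputable def sepCard (ρ : X → X → ℝ) (ε : ℝ) {d : ℕ} (Y : Set (Fin d → X)) : ℕ∞ :=
  ⨆ (E : Finset (Fin d → X)) (_ : (∀ φ ∈ E, φ ∈ Y) ∧
    ∀ φ ∈ E, ∀ ψ ∈ E, φ ≠ ψ → ∃ j, ε ≤ ρ (φ j) (ψ j)), (E.card : ℕ∞)

/-- the topological sofic entropy (Kerr–Li), computed with the pseudometric `ρ` -/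
noncomputable def hS [MulAction Γ X] (Sig : SoficApprox Γ) (ρ : X → X → ℝ) : EReal :=
  ⨆ (ε : ℝ) (_ : 0 < ε), ⨅ (F : Finset Γ), ⨅ (δ : ℝ) (_ : 0 < δ),
    limsup (fun i => ENNReal.log ((sepCard ρ ε (MapS ρ F δ (Sig.σ i)) : ℕ∞) : ℝ≥0∞) /
      ((Sig.d i : ℝ) : EReal)) atTop

/-- `X` is the full shift with the finite alphabet `𝔸` in the coordinate `c` -/
structure FullShift (Γ : Type u) [Group Γ] {X : Type v} [TopologicalSpace X] [MulAction Γ X]
    {𝔸 : Type} (c : X → 𝔸) : Prop where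
  comp : CompactSpace X
  act : ∀ γ : Γ, Continuous fun x : X => γ • x
  loc : IsLocallyConstant c
  bij : Function.Bijective fun (x : X) (γ : Γ) => c (γ • x)

/-- `σ` is multiplicative on `F` up to the proportion `κ` -/
def AlmMul (F : Finset Γ) (κ : ℝ) {d : ℕ} (σ : Γ → Equiv.Perm (Fin d)) : Prop :=
  ∀ s ∈ F, ∀ t ∈ F, ((Finset.univ.filter fun j => σ s (σ t j) ≠ σ (s * t) j).card : ℝ) ≤ κ * d

end entropy

/-- the Pontryagin dual of the (discrete) `ℤ(Γ)`-module `A` -/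
def Dual (Γ : Type u) [Group Γ] (A : Type u) [AddCommGroup A] [Module (MonoidAlgebra ℤ Γ) A] :
    Type u := A →+ UnitAddCircle

section dual

variable (Γ : Type u) [Group Γ] (A : Type u) [AddCommGroup A] [Module (MonoidAlgebra ℤ Γ) A]

/-- the topology of pointwise convergence -/
instance : TopologicalSpace (Dual Γ A) :=
  TopologicalSpace.induced (fun (χ : A →+ UnitAddCircle) (a : A) => χ a) inferInstance

/-- `(γ χ) (a) = χ (γ⁻¹ a)` -/
noncomputable instance : MulAction Γ (Dual Γ A) where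
  smul γ χ := (AddMonoidHom.comp (show A →+ UnitAddCircle from χ)
    (DistribSMul.toAddMonoidHom A (MonoidAlgebra.of ℤ Γ γ⁻¹)) : A →+ UnitAddCircle)
  one_smul χ := by
    refine AddMonoidHom.ext fun a => ?_
    change (show A →+ UnitAddCircle from χ) (MonoidAlgebra.of ℤ Γ 1⁻¹ • a) =
      (show A →+ UnitAddCircle from χ) a
    rw [inv_one, map_one, one_smul]
  mul_smul γ γ' χ := by
    refine AddMonoidHom.ext fun a => ?_
    change (show A →+ UnitAddCircle from χ) (MonoidAlgebra.of ℤ Γ (γ * γ')⁻¹ • a) =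
      (show A →+ UnitAddCircle from χ) (MonoidAlgebra.of ℤ Γ γ'⁻¹ •
        (MonoidAlgebra.of ℤ Γ γ⁻¹ • a))
    rw [mul_inv_rev, map_mul, mul_smul]

end dual

end Pool.Agent.T5h70.SE
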