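import Pool.Agent.T5h70.SE.Def

/-!
# Project SE: statements of the tasks

MP_5ec319_an: for every countable non-amenable group `Γ` and every sofic approximation there is an exact sequence
`0 → A → B → C → 0` of countable `ℤ(Γ)`-modules with `h(B^) < h(A^) + h(C^)`.

Plan. For a large prime `p`, `K = ZMod p`, there are `n > m` and an injective `KΓ`-linear map `(KΓ)^n → (KΓ)^m` (INJ, MOD).
The duals of `(KΓ)^n`, `(KΓ)^m` are full shifts with `p^n`, `p^m` symbols, with entropies `n log p`, `m log p` for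
every sofic approximation (UP, LO), and `h(C^) ≥ 0`.
-/

set_option autoImplicit false

namespace Pool.Agent.T5h70.SE

open Filter Topology
open scoped ENNReal Pointwise

universe u v

/-! ## Entropy of full shifts -/

/-- **GEN** (compactness). The set `{(x,y) | c x ≠ c y}` is compact and covered by the open sets
`{(x,y) | 1/(n+1) < ρ (γ x) (γ y)}`. -/
def S_GEN : Prop :=
  ∀ (Γ : Type u) (_ : Group Γ) (X : Type v) (_ : TopologicalSpace X) (_ : MulAction Γ X) (𝔸 : Type)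
    (c : X → 𝔸) (ρ : X → X → ℝ), FullShift Γ c → IsPM ρ → Generating Γ ρ →
    ∃ (F : Finset Γ) (δ : ℝ), 0 < δ ∧ ∀ x y, c x ≠ c y → ∃ γ ∈ F, δ ≤ ρ (γ • x) (γ • y)

/-- **UNI** (compactness). The set `{(x,y) | ε ≤ ρ x y}` is compact and covered by the open sets
`{(x,y) | c (γ x) ≠ c (γ y)}` (injectivity, `ρ x x = 0`). -/
def S_UNI : Prop :=
  ∀ (Γ : Type u) (_ : Group Γ) (X : Type v) (_ : TopologicalSpace X) (_ : MulAction Γ X) (𝔸 : Type)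
    (c : X → 𝔸) (ρ : X → X → ℝ), FullShift Γ c → IsPM ρ → ∀ ε : ℝ, 0 < ε →
    ∃ F : Finset Γ, ∀ x y, (∀ γ ∈ F, c (γ • x) = c (γ • y)) → ρ x y < ε

/-- **BND**: `ρ` is bounded and nonnegative. -/
def S_BND : Prop :=
  ∀ (X : Type v) (_ : TopologicalSpace X) (ρ : X → X → ℝ), CompactSpace X → IsPM ρ →
    ∃ M : ℝ, 0 < M ∧ ∀ x y, 0 ≤ ρ x y ∧ ρ x y ≤ M

/-- **CNT**. `∑_{k ≤ κ d} C(d,k) ≤ x^(-κ d) (1+x)^d` for `0 < x < 1`; choose `x`, then `κ`. -/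
def S_CNT : Prop :=
  ∀ η : ℝ, 0 < η → ∃ κ : ℝ, 0 < κ ∧ ∀ d : ℕ,
    (((Finset.univ : Finset (Finset (Fin d))).filter fun B => (B.card : ℝ) ≤ κ * d).card : ℝ) ≤
      Real.exp (η * d)

/-- **BAD** (Chebyshev). -/
def S_BAD : Prop :=
  ∀ (Γ : Type u) (_ : Group Γ) (X : Type v) (_ : MulAction Γ X) (ρ : X → X → ℝ) (F : Finset Γ)
    (δ b : ℝ) (d : ℕ) (σ : Γ → Equiv.Perm (Fin d)) (φ : Fin d → X), (∀ x y, 0 ≤ ρ x y) → 0 < b →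
    φ ∈ MapS ρ F δ σ → ∀ γ ∈ F,
      ((Finset.univ.filter fun j => b ≤ ρ (φ (σ γ j)) (γ • φ j)).card : ℝ) ≤ δ ^ 2 / b ^ 2 * d

/-- **UPC** (from GEN, UNI, BND, CNT, BAD). Let `F₀` be from UNI for `ε`, `F₁, δ₁` from GEN,
`F = F₁ F₀ ∪ F₁ ∪ F₀`, `δ` and `κ` small. For `φ` in a separated set `E ⊆ Map` let `a (j) = c (φ j)`, and `B` the set of the `j`
such that for some `γ ∈ F₀`, `γ' ∈ F₁`: `δ₁/2 ≤ ρ (φ (σ_γ' (σ_γ j))) (γ' φ (σ_γ j))`, or `δ₁/2 ≤ ρ (φ (σ_(γ'γ) j)) (γ' γ φ j)`, or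
`σ_γ' (σ_γ j) ≠ σ_(γ'γ) j`; so `|B| ≤ |F₀| |F₁| (8 δ²/δ₁² + κ) d` (BAD; `σ_γ` is a bijection). For `j ∉ B`, `γ ∈ F₀`:
`ρ (γ' φ (σ_γ j)) (γ' γ φ j) < δ₁` for all `γ' ∈ F₁`, so `c (γ φ j) = c (φ (σ_γ j)) = a (σ_γ j)`. So `a`, `B` and
`(c (γ φ j))`, `γ ∈ F₀`, `j ∈ B`, determine `c (γ φ j)` for all `γ ∈ F₀` and `j`, so `φ` up to `ρ_∞ < ε`. At most
`|𝔸|^d exp(η d / 2) |𝔸|^(|F₀| κ' d)` triples. -/
def S_UPC : Prop :=
  ∀ (Γ : Type u) (_ : Group Γ) (X : Type v) (_ : TopologicalSpace X) (_ : MulAction Γ X) (𝔸 : Type)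
    (_ : Fintype 𝔸) (_ : Nonempty 𝔸) (c : X → 𝔸) (ρ : X → X → ℝ), FullShift Γ c → IsPM ρ →
    Generating Γ ρ → ∀ ε η : ℝ, 0 < ε → 0 < η → ∃ (F : Finset Γ) (δ κ : ℝ), 0 < δ ∧ 0 < κ ∧
      ∀ (d : ℕ) (σ : Γ → Equiv.Perm (Fin d)), 1 ≤ d → AlmMul F κ σ →
        ∀ E : Finset (Fin d → X), (∀ φ ∈ E, φ ∈ MapS ρ F δ σ) →
          (∀ φ ∈ E, ∀ ψ ∈ E, φ ≠ ψ → ∃ j, ε ≤ ρ (φ j) (ψ j)) →
          (E.card : ℝ) ≤ Real.exp ((Real.log (Fintype.card 𝔸) + η) * d)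

/-- **UP** (from UPC). For large `i` the map `σ_i` is `AlmMul F κ` (`SoficApprox.mul`). -/
def S_UP : Prop :=
  ∀ (Γ : Type u) (_ : Group Γ) (X : Type v) (_ : TopologicalSpace X) (_ : MulAction Γ X) (𝔸 : Type)
    (_ : Fintype 𝔸) (_ : Nonempty 𝔸) (c : X → 𝔸) (ρ : X → X → ℝ) (Sig : SoficApprox Γ),
    FullShift Γ c → IsPM ρ → Generating Γ ρ →
    hS Sig ρ ≤ ((Real.log (Fintype.card 𝔸) : ℝ) : EReal)

/-- **LOC** (from GEN, UNI, BND). Let `F₁, δ₁` be from GEN, `ε₀ = δ₁ / 3`. Given `F, δ, η`, let `F₂` be from UNI for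
`min (δ/2) (δ₁/3)` and `F' = F₂ ∪ F ∪ F₁`, `κ` small. For `a : Fin d → 𝔸` let `φ_a j` be the point with
`c (γ φ_a j) = a (σ_γ j)` for all `γ`. If `j` is good (`σ_η (σ_γ j) = σ_(ηγ) j` for all `η ∈ F₂`, `γ ∈ F ∪ F₁`) then
`c (η φ_a (σ_γ j)) = c (η γ φ_a j)` for `η ∈ F₂`, so `ρ (φ_a (σ_γ j)) (γ φ_a j) < min (δ/2) (δ₁/3)`; the number of the other `j` is at most
`|F₂| |F ∪ F₁| κ d`, so `φ_a ∈ Map`. If `a, a'` agree on `{σ_1 j : j not good}` and `a ≠ a'`, then there is a good `j` with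
`c (φ_a j) = a (σ_1 j) ≠ a' (σ_1 j) = c (φ_a' j)`, so (GEN) `δ₁ ≤ ρ (γ φ_a j) (γ φ_a' j)` for some `γ ∈ F₁`, and
`δ₁/3 ≤ ρ (φ_a (σ_γ j)) (φ_a' (σ_γ j))`. Take all `a` with a fixed value on `{σ_1 j : j not good}`. -/
def S_LOC : Prop :=
  ∀ (Γ : Type u) (_ : Group Γ) (X : Type v) (_ : TopologicalSpace X) (_ : MulAction Γ X) (𝔸 : Type)
    (_ : Fintype 𝔸) (_ : Nonempty 𝔸) (c : X → 𝔸) (ρ : X → X → ℝ), FullShift Γ c → IsPM ρ →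
    Generating Γ ρ → ∃ ε₀ : ℝ, 0 < ε₀ ∧ ∀ (F : Finset Γ) (δ η : ℝ), 0 < δ → 0 < η →
      ∃ (F' : Finset Γ) (κ : ℝ), 0 < κ ∧ ∀ (d : ℕ) (σ : Γ → Equiv.Perm (Fin d)), 1 ≤ d →
        AlmMul F' κ σ → ∃ E : Finset (Fin d → X), (∀ φ ∈ E, φ ∈ MapS ρ F δ σ) ∧
          (∀ φ ∈ E, ∀ ψ ∈ E, φ ≠ ψ → ∃ j, ε₀ ≤ ρ (φ j) (ψ j)) ∧
          Real.exp ((Real.log (Fintype.card 𝔸) - η) * d) ≤ E.card

/-- **LO** (from LOC). -/
def S_LO : Prop :=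
  ∀ (Γ : Type u) (_ : Group Γ) (X : Type v) (_ : TopologicalSpace X) (_ : MulAction Γ X) (𝔸 : Type)
    (_ : Fintype 𝔸) (_ : Nonempty 𝔸) (c : X → 𝔸) (ρ : X → X → ℝ) (Sig : SoficApprox Γ),
    FullShift Γ c → IsPM ρ → Generating Γ ρ →
    ((Real.log (Fintype.card 𝔸) : ℝ) : EReal) ≤ hS Sig ρ

/-- **NN**. The constant map to the fixed point is in every `Map`, so `N_ε ≥ 1`. -/
def S_NN : Prop :=
  ∀ (Γ : Type u) (_ : Group Γ) (X : Type v) (_ : TopologicalSpace X) (_ : MulAction Γ X)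
    (ρ : X → X → ℝ) (Sig : SoficApprox Γ) (x₀ : X), (∀ γ : Γ, γ • x₀ = x₀) → IsPM ρ →
    0 ≤ hS Sig ρ

/-- **PMX**: a countable module has a dual with a generating pseudometric (the dual is metrizable: its topology is
induced by an injective map to a countable product; or `∑ 2^(-k) ‖χ (a_k) - ψ (a_k)‖`). -/
def S_PMX : Prop :=
  ∀ (Γ : Type u) (_ : Group Γ) (A : Type u) (_ : AddCommGroup A) (_ : Module (MonoidAlgebra ℤ Γ) A),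
    Countable A → ∃ ρ : Dual Γ A → Dual Γ A → ℝ, IsPM ρ ∧ Generating Γ ρ

/-! ## The injection -/

/-- **EXP**. Let `S₀, ε` violate Følner's condition, `T = S₀ ∪ {1}`: `|T F| ≥ (1 + ε/(|S₀|+1)) |F|` for nonempty `F` (some `s ∈ S₀`
has `|s F \ F| > ε |F|`, so `|T F| ≥ (1+ε) |F|`), so `|T^r F| ≥ (1+ε)^r |F|`; `harmonic |T^r| ≤ 1 + r log |T|`
(`harmonic_le_one_add_log`), so `harmonic |T^r| < (1+ε)^r` for a large `r`. Take `S = (T^r)⁻¹` and apply this to `F⁻¹`: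
`|F S| = |S⁻¹ F⁻¹|`. -/
def S_EXP : Prop :=
  ∀ (Γ : Type u) (_ : Group Γ) (_ : DecidableEq Γ), ¬ Amenable Γ → ∃ (S : Finset Γ) (c : ℝ),
    S.Nonempty ∧ ((harmonic S.card : ℚ) : ℝ) < c ∧ ∀ F : Finset Γ, c * F.card ≤ ((F * S).card : ℝ)

/-- **LCL** (double counting). `∑_{g ∈ F} ∑_{s ∈ S} 1 / t (g s) = ∑_{h ∈ F S} t (h) / t (h) = |F S| ≥ c |F|`. -/
def S_LCL : Prop :=
  ∀ (Γ : Type u) (_ : Group Γ) (_ : DecidableEq Γ) (S F : Finset Γ) (c : ℝ), F.Nonempty →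
    c * F.card ≤ ((F * S).card : ℝ) →
    ∃ g ∈ F, c ≤ ∑ s ∈ S, 1 / ((S.filter fun s' => g * s * s'⁻¹ ∈ F).card : ℝ)

/-- **PAR**. Let `w` be a multiple of `(k+1)!²`, `r u = w / (u (u+1))` for `1 ≤ u < k`, `r k = w / k`, so
`∑_{t ≤ u ≤ k} r u = w / t` and `m = ∑ u r u = w harmonic k`; `n = m + 1 ≤ w c` if `w` is large. -/
def S_PAR : Prop :=
  ∀ (k : ℕ) (c : ℝ), 1 ≤ k → ((harmonic k : ℚ) : ℝ) < c → ∃ (w n m : ℕ) (r : ℕ → ℕ),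
    m < n ∧ (n : ℝ) ≤ w * c ∧ m = ∑ u ∈ Finset.Icc 1 k, u * r u ∧
    ∀ t ∈ Finset.Icc 1 k, ((∑ u ∈ Finset.Icc t k, r u : ℕ) : ℝ) = w / t

/-- the value of the polynomial with coefficients `v` -/
def pol {K : Type} [Field K] {n : ℕ} (v : Fin n → K) (x : K) : K := ∑ i, v i * x ^ (i : ℕ)

/-- **VDM**. Nodes: distinct natural numbers smaller than `p`. (1) If a linear combination of at most `N` of the columns
`(ν^b)_{b<N}` with distinct nodes is zero then the coefficients are zero (Vandermonde,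
`Matrix.eq_zero_of_forall_pow_sum_mul_pow_eq_zero`); here the columns are indexed by `(s, a)`, `s ∈ T`, `a < r u`, and `N = u r u`.
(2) A polynomial of degree `< n` with `n` distinct zeros is zero. -/
def S_VDM : Prop :=
  ∀ (ι : Type u) (S : Finset ι) (_ : DecidableEq ι) (k n : ℕ) (r : ℕ → ℕ), ∃ p : ℕ, ∃ hp : Fact p.Prime,
    ∃ (ν μ : ι → ℕ → ℕ → ZMod p),
      (∀ u ∈ Finset.Icc 1 k, ∀ T : Finset ι, T ⊆ S → T.card ≤ u → ∀ y : ι → ℕ → ZMod p,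
        (∀ b < u * r u, ∑ s ∈ T, ∑ a ∈ Finset.range (r u), ν s u a ^ b * y s a = 0) →
        ∀ s ∈ T, ∀ a < r u, y s a = 0) ∧
      (∀ (v : Fin n → ZMod p) (τ : ι → ℕ), (∀ s ∈ S, 1 ≤ τ s) →
        (n : ℕ) ≤ ∑ s ∈ S, ∑ u ∈ Finset.Icc (τ s) k, r u →
        (∀ s ∈ S, ∀ u ∈ Finset.Icc (τ s) k, ∀ a < r u, pol v (μ s u a) = 0) → v = 0)

/-- **INJ** (from EXP, LCL, PAR, VDM). `k = |S|`, the output of index `(u, b)`, `1 ≤ u ≤ k`, `b < u r u`, at `h` is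
`∑_{s ∈ S} ∑_{a < r u} ν(s,u,a)^b P_{x(h s⁻¹)}(μ(s,u,a))`, `P_v = pol v`; there are `m` indices (a bijection with `Fin m`). If
`x ≠ 0` let `F` be its support, `g` from LCL, `t (h) = #{s' ∈ S | h s'⁻¹ ∈ F}`, `τ s = t (g s) ≥ 1`. For `s ∈ S`, `h = g s`,
`T = {s' ∈ S | h s'⁻¹ ∈ F}`, `u ≥ τ s`: the sum over `S` is the sum over `T`, so (VDM 1) `P_{x(g)}(μ(s,u,a)) = 0`. And
`∑_s ∑_{u ≥ τ s} r u = w ∑_s 1/τ s ≥ w c ≥ n`, so `x g = 0` (VDM 2). The coefficient is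
`M s (u,b) i = ∑_a ν^b μ^i`. -/
def S_INJ : Prop :=
  ∀ (Γ : Type u) (_ : Group Γ), ¬ Amenable Γ → ∃ p : ℕ, ∃ hp : Fact p.Prime, ∃ n m : ℕ, m < n ∧
    ∃ (S : Finset Γ) (M : Γ → Fin m → Fin n → ZMod p), ∀ x : Γ →₀ (Fin n → ZMod p),
      (∀ (h : Γ) (j : Fin m), ∑ s ∈ S, ∑ i, M s j i * x (h * s⁻¹) i = 0) → x = 0

/-- the `ℤ(Γ)`-module `(ZMod p)(Γ)^n` -/
noncomputable instance modInst (p n : ℕ) (Γ : Type u) [Group Γ] :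
    Module (MonoidAlgebra ℤ Γ) (Fin n → MonoidAlgebra (ZMod p) Γ) :=
  Module.compHom _ (MonoidAlgebra.mapRingHom Γ (Int.castRingHom (ZMod p)))

/-- **MOD** (from INJ). `f (x)_j = ∑_i x_i * (∑_{s ∈ S} M s j i [s])`. -/
def S_MOD : Prop :=
  ∀ (Γ : Type u) (_ : Group Γ), ¬ Amenable Γ → ∃ p : ℕ, ∃ hp : Fact p.Prime, ∃ n m : ℕ, m < n ∧
    ∃ f : (Fin n → MonoidAlgebra (ZMod p) Γ) →ₗ[MonoidAlgebra ℤ Γ]
      (Fin m → MonoidAlgebra (ZMod p) Γ), Function.Injective f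

/-- **DUA**. `𝔸` is the set of the functions from `Fin n` to the `p`-torsion of the circle, `c χ = (χ (e_i))_i`, `e_i` the unit
vectors; `(γ χ) (e_i) = χ (γ⁻¹ e_i)`, and the `γ e_i` generate the module, freely over `ZMod p`. The dual is compact: a closed
subset of the product of circles. (For `loc`: `c` is continuous to a finite discrete set.) -/
def S_DUA : Prop :=
  ∀ (Γ : Type u) (_ : Group Γ) (p n : ℕ) (_ : Fact p.Prime),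
    ∃ (𝔸 : Type) (_ : Fintype 𝔸) (c : Dual Γ (Fin n → MonoidAlgebra (ZMod p) Γ) → 𝔸),
      Fintype.card 𝔸 = p ^ n ∧ FullShift Γ c

/-- **FIN** (from UP, LO, NN, PMX, MOD, DUA). `C` is the quotient by the image, `h(B^) ≤ m log p < n log p ≤ h(A^) ≤ h(A^) + h(C^)`. -/
def S_FIN : Prop :=
  ∀ (Γ : Type u) (_ : Group Γ), Countable Γ → ¬ Amenable Γ → ∀ Sig : SoficApprox Γ,
    ∃ (A B C : Type u) (_ : AddCommGroup A) (_ : AddCommGroup B) (_ : AddCommGroup C)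
      (_ : Module (MonoidAlgebra ℤ Γ) A) (_ : Module (MonoidAlgebra ℤ Γ) B)
      (_ : Module (MonoidAlgebra ℤ Γ) C) (f : A →ₗ[MonoidAlgebra ℤ Γ] B)
      (g : B →ₗ[MonoidAlgebra ℤ Γ] C), Countable A ∧ Countable B ∧ Countable C ∧
      Function.Injective f ∧ Function.Exact f g ∧ Function.Surjective g ∧
      (∃ ρ : Dual Γ A → Dual Γ A → ℝ, IsPM ρ ∧ Generating Γ ρ) ∧
      (∃ ρ : Dual Γ B → Dual Γ B → ℝ, IsPM ρ ∧ Generating Γ ρ) ∧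
      (∃ ρ : Dual Γ C → Dual Γ C → ℝ, IsPM ρ ∧ Generating Γ ρ) ∧
      ∀ (ρA : Dual Γ A → Dual Γ A → ℝ) (ρB : Dual Γ B → Dual Γ B → ℝ) (ρC : Dual Γ C → Dual Γ C → ℝ),
        IsPM ρA → Generating Γ ρA → IsPM ρB → Generating Γ ρB → IsPM ρC → Generating Γ ρC →
        hS Sig ρB < hS Sig ρA + hS Sig ρC

end Pool.Agent.T5h70.SE
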