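import Pool.Agent.T5h70.SE.T_FIN

/-! Project SE: one module of finite entropy with submodules whose entropies are arbitrarily large. -/

set_option autoImplicit false

namespace Pool.Agent.T5h70.SE

open Filter Topology
open scoped ENNReal Pointwise

universe u

/-- an injection `f` of `R^n` into `R^m`, applied to the first `n` of `n + l` coordinates -/
noncomputable def padMap (Γ : Type u) [Group Γ] (p n m l : ℕ)
    (f : (Fin n → MonoidAlgebra (ZMod p) Γ) →ₗ[MonoidAlgebra ℤ Γ]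
      (Fin m → MonoidAlgebra (ZMod p) Γ)) :
    (Fin (n + l) → MonoidAlgebra (ZMod p) Γ) →ₗ[MonoidAlgebra ℤ Γ]
      (Fin (m + l) → MonoidAlgebra (ZMod p) Γ) where
  toFun x := Fin.append (f fun i => x (Fin.castAdd l i)) fun i => x (Fin.natAdd n i)
  map_add' x y := by
    have h : f (fun i => (x + y) (Fin.castAdd l i)) =
        f (fun i => x (Fin.castAdd l i)) + f (fun i => y (Fin.castAdd l i)) :=
      map_add f (fun i => x (Fin.castAdd l i)) (fun i => y (Fin.castAdd l i))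
    funext j
    refine Fin.addCases (fun i => ?_) (fun i => ?_) j
    · simp only [Fin.append_left, Pi.add_apply]
      exact congrFun h i
    · simp only [Fin.append_right, Pi.add_apply]
  map_smul' a x := by
    have h : f (fun i => (a • x) (Fin.castAdd l i)) = a • f (fun i => x (Fin.castAdd l i)) :=
      map_smul f a (fun i => x (Fin.castAdd l i))
    funext j
    refine Fin.addCases (fun i => ?_) (fun i => ?_) j
    · rw [Fin.append_left]
      refine (congrFun h i).trans ?_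
      change MonoidAlgebra.mapRingHom Γ (Int.castRingHom (ZMod p)) a * _ =
        MonoidAlgebra.mapRingHom Γ (Int.castRingHom (ZMod p)) a * _
      rw [Fin.append_left]
    · rw [Fin.append_right]
      change MonoidAlgebra.mapRingHom Γ (Int.castRingHom (ZMod p)) a * _ =
        MonoidAlgebra.mapRingHom Γ (Int.castRingHom (ZMod p)) a * _
      rw [Fin.append_right]

theorem padMap_left (Γ : Type u) [Group Γ] (p n m l : ℕ)
    (f : (Fin n → MonoidAlgebra (ZMod p) Γ) →ₗ[MonoidAlgebra ℤ Γ]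
      (Fin m → MonoidAlgebra (ZMod p) Γ)) (x : Fin (n + l) → MonoidAlgebra (ZMod p) Γ) (j : Fin m) :
    padMap Γ p n m l f x (Fin.castAdd l j) = f (fun i => x (Fin.castAdd l i)) j := by
  change Fin.append (f fun i => x (Fin.castAdd l i)) (fun i => x (Fin.natAdd n i))
    (Fin.castAdd l j) = _
  rw [Fin.append_left]

theorem padMap_right (Γ : Type u) [Group Γ] (p n m l : ℕ)
    (f : (Fin n → MonoidAlgebra (ZMod p) Γ) →ₗ[MonoidAlgebra ℤ Γ]
      (Fin m → MonoidAlgebra (ZMod p) Γ)) (x : Fin (n + l) → MonoidAlgebra (ZMod p) Γ) (j : Fin l) :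
    padMap Γ p n m l f x (Fin.natAdd m j) = x (Fin.natAdd n j) := by
  change Fin.append (f fun i => x (Fin.castAdd l i)) (fun i => x (Fin.natAdd n i))
    (Fin.natAdd m j) = _
  rw [Fin.append_right]

theorem padMap_injective (Γ : Type u) [Group Γ] (p n m l : ℕ)
    (f : (Fin n → MonoidAlgebra (ZMod p) Γ) →ₗ[MonoidAlgebra ℤ Γ]
      (Fin m → MonoidAlgebra (ZMod p) Γ)) (hf : Function.Injective f) :
    Function.Injective (padMap Γ p n m l f) := by
  intro x y hxy
  have h1 : f (fun i => x (Fin.castAdd l i)) = f (fun i => y (Fin.castAdd l i)) := by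
    funext j
    have := congrFun hxy (Fin.castAdd l j)
    rwa [padMap_left, padMap_left] at this
  have h2 := hf h1
  funext j
  refine Fin.addCases (fun i => ?_) (fun i => ?_) j
  · exact congrFun h2 i
  · have := congrFun hxy (Fin.natAdd m i)
    rwa [padMap_right, padMap_right] at this

theorem inj_all (Γ : Type u) [Group Γ] (p n m : ℕ) (hmn : m < n)
    (f : (Fin n → MonoidAlgebra (ZMod p) Γ) →ₗ[MonoidAlgebra ℤ Γ]
      (Fin m → MonoidAlgebra (ZMod p) Γ)) (hf : Function.Injective f) (k : ℕ) :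
    ∃ N : ℕ, k ≤ N ∧ ∃ g : (Fin N → MonoidAlgebra (ZMod p) Γ) →ₗ[MonoidAlgebra ℤ Γ]
      (Fin m → MonoidAlgebra (ZMod p) Γ), Function.Injective g := by
  induction k with
  | zero => exact ⟨m, Nat.zero_le _, LinearMap.id, Function.injective_id⟩
  | succ k ih =>
    obtain ⟨N, hN, g, hg⟩ := ih
    obtain ⟨l, hl, rfl⟩ : ∃ l, 1 ≤ l ∧ n = m + l := ⟨n - m, by omega, by omega⟩
    exact ⟨N + l, by omega, f.comp (padMap Γ p N m l g),
      hf.comp (padMap_injective Γ p N m l g hg)⟩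

theorem strong (h1 : S_UP.{u, u}) (h2 : S_LO.{u, u}) (h3 : S_NN.{u, u}) (h4 : S_PMX.{u})
    (h5 : S_MOD.{u}) (h6 : S_DUA.{u}) (Γ : Type u) [Group Γ] [Countable Γ] (hΓ : ¬ Amenable Γ) :
    ∃ (B : Type u) (_ : AddCommGroup B) (_ : Module (MonoidAlgebra ℤ Γ) B) (R : ℝ),
      Countable B ∧ ∀ L : ℝ, ∃ (A C : Type u) (_ : AddCommGroup A) (_ : AddCommGroup C)
        (_ : Module (MonoidAlgebra ℤ Γ) A) (_ : Module (MonoidAlgebra ℤ Γ) C)
        (f : A →ₗ[MonoidAlgebra ℤ Γ] B) (g : B →ₗ[MonoidAlgebra ℤ Γ] C),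
        Countable A ∧ Countable C ∧
        Function.Injective f ∧ Function.Exact f g ∧ Function.Surjective g ∧
        (∃ ρ : Dual Γ A → Dual Γ A → ℝ, IsPM ρ ∧ Generating Γ ρ) ∧
        (∃ ρ : Dual Γ B → Dual Γ B → ℝ, IsPM ρ ∧ Generating Γ ρ) ∧
        (∃ ρ : Dual Γ C → Dual Γ C → ℝ, IsPM ρ ∧ Generating Γ ρ) ∧
        ∀ (Sig : SoficApprox Γ) (ρA : Dual Γ A → Dual Γ A → ℝ) (ρB : Dual Γ B → Dual Γ B → ℝ)
          (ρC : Dual Γ C → Dual Γ C → ℝ),
          IsPM ρA → Generating Γ ρA → IsPM ρB → Generating Γ ρB → IsPM ρC → Generating Γ ρC →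
          hS Sig ρB ≤ (R : EReal) ∧ (L : EReal) ≤ hS Sig ρA ∧ 0 ≤ hS Sig ρC ∧
          hS Sig ρB < hS Sig ρA + hS Sig ρC := by
  obtain ⟨p, hp, n, m, hmn, f₀, hf₀⟩ := h5 Γ _ hΓ
  have hp1 : 1 < p := hp.out.one_lt
  have hlog : 0 < Real.log p := Real.log_pos (by exact_mod_cast hp1)
  refine ⟨(Fin m → MonoidAlgebra (ZMod p) Γ), inferInstance, inferInstance, Real.log ((p ^ m : ℕ) : ℝ),
    inferInstance, fun L => ?_⟩
  obtain ⟨k, hk⟩ := exists_nat_gt (L / Real.log p)
  obtain ⟨N, hN, f, hf⟩ := inj_all Γ p n m hmn f₀ hf₀ (max k (m + 1))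
  refine ⟨(Fin N → MonoidAlgebra (ZMod p) Γ),
    (Fin m → MonoidAlgebra (ZMod p) Γ) ⧸ LinearMap.range f, inferInstance, inferInstance,
    inferInstance, inferInstance, f,
    (LinearMap.range f).mkQ, inferInstance, ?_, hf, ?_,
    Submodule.mkQ_surjective _, ?_, ?_, ?_, ?_⟩
  · exact (Submodule.mkQ_surjective (LinearMap.range f)).countable
  · intro b
    rw [Submodule.mkQ_apply, Submodule.Quotient.mk_eq_zero]
    exact LinearMap.mem_range
  · exact h4 Γ _ _ _ _ inferInstance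
  · exact h4 Γ _ _ _ _ inferInstance
  · exact h4 Γ _ _ _ _ (Submodule.mkQ_surjective (LinearMap.range f)).countable
  · intro Sig ρA ρB ρC hA hA' hB hB' hC _
    obtain ⟨𝔸, i1, c, hcard, hfs⟩ := h6 Γ _ p m hp
    have hne : Nonempty 𝔸 := by
      rw [← Fintype.card_pos_iff, hcard]
      positivity
    have e1 := h1 Γ _ _ _ _ 𝔸 i1 hne c ρB Sig hfs hB hB'
    obtain ⟨𝔸', i2, c', hcard', hfs'⟩ := h6 Γ _ p N hp
    have hne' : Nonempty 𝔸' := by
      rw [← Fintype.card_pos_iff, hcard']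
      positivity
    have e2 := h2 Γ _ _ _ _ 𝔸' i2 hne' c' ρA Sig hfs' hA hA'
    have e3 : 0 ≤ hS Sig ρC := by
      refine h3 Γ _ _ _ _ ρC Sig (0 : ((Fin m → MonoidAlgebra (ZMod p) Γ) ⧸
        LinearMap.range f) →+ UnitAddCircle) ?_ hC
      intro γ
      exact AddMonoidHom.ext fun a => rfl
    rw [hcard] at e1
    rw [hcard'] at e2
    have e4 : ((Real.log ((p ^ m : ℕ) : ℝ) : ℝ) : EReal) < ((Real.log ((p ^ N : ℕ) : ℝ) : ℝ) : EReal) := by
      rw [EReal.coe_lt_coe_iff]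
      push_cast
      rw [Real.log_pow, Real.log_pow]
      refine mul_lt_mul_of_pos_right ?_ hlog
      have : m < N := lt_of_lt_of_le (by omega) hN
      exact_mod_cast this
    have e5 : (L : EReal) ≤ ((Real.log ((p ^ N : ℕ) : ℝ) : ℝ) : EReal) := by
      rw [EReal.coe_le_coe_iff]
      push_cast
      rw [Real.log_pow]
      rw [div_lt_iff₀ hlog] at hk
      refine hk.le.trans (mul_le_mul_of_nonneg_right ?_ hlog.le)
      have : k ≤ N := le_trans (le_max_left _ _) hN
      exact_mod_cast this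
    refine ⟨e1, e5.trans e2, e3, ?_⟩
    calc hS Sig ρB ≤ _ := e1
      _ < _ := e4
      _ ≤ hS Sig ρA := e2
      _ ≤ hS Sig ρA + hS Sig ρC := le_add_of_nonneg_right e3

end Pool.Agent.T5h70.SE
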