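import Pool.Agent.T5h70.SE.Stm

/-! Task FIN of project SE. -/

set_option autoImplicit false

namespace Pool.Agent.T5h70.SE

open Filter Topology
open scoped ENNReal Pointwise

universe u

instance cMod (p n : ℕ) (Γ : Type u) [Group Γ] [Countable Γ] :
    Countable (Fin n → MonoidAlgebra (ZMod p) Γ) := by
  have h1 : Countable (ZMod p) := by
    rcases p with _ | p
    · exact inferInstanceAs (Countable ℤ)
    · exact inferInstanceAs (Countable (Fin (p + 1)))
  have h2 : Countable (Γ →₀ ZMod p) := inferInstance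
  have h3 : Countable (MonoidAlgebra (ZMod p) Γ) :=
    (MonoidAlgebra.coeff_injective (R := ZMod p) (M := Γ)).countable
  infer_instance

theorem t_FIN (h1 : S_UP.{u, u}) (h2 : S_LO.{u, u}) (h3 : S_NN.{u, u}) (h4 : S_PMX.{u})
    (h5 : S_MOD.{u}) (h6 : S_DUA.{u}) : S_FIN.{u} := by
  intro Γ _ hc hna Sig
  obtain ⟨p, hp, n, m, hmn, f, hf⟩ := h5 Γ _ hna
  refine ⟨(Fin n → MonoidAlgebra (ZMod p) Γ), (Fin m → MonoidAlgebra (ZMod p) Γ),
    (Fin m → MonoidAlgebra (ZMod p) Γ) ⧸ LinearMap.range f, inferInstance, inferInstance,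
    inferInstance, inferInstance, inferInstance, inferInstance, f,
    (LinearMap.range f).mkQ, inferInstance, inferInstance, ?_, hf, ?_,
    Submodule.mkQ_surjective _, ?_, ?_, ?_, ?_⟩
  · exact (Submodule.mkQ_surjective (LinearMap.range f)).countable
  · intro b
    rw [Submodule.mkQ_apply, Submodule.Quotient.mk_eq_zero]
    exact LinearMap.mem_range
  · exact h4 Γ _ _ _ _ inferInstance
  · exact h4 Γ _ _ _ _ inferInstance
  · exact h4 Γ _ _ _ _ (Submodule.mkQ_surjective (LinearMap.range f)).countable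
  · intro ρA ρB ρC hA hA' hB hB' hC _
    have hp1 : 1 < p := hp.out.one_lt
    obtain ⟨𝔸, i1, c, hcard, hfs⟩ := h6 Γ _ p m hp
    have hne : Nonempty 𝔸 := by
      rw [← Fintype.card_pos_iff, hcard]
      positivity
    have e1 := h1 Γ _ _ _ _ 𝔸 i1 hne c ρB Sig hfs hB hB'
    obtain ⟨𝔸', i2, c', hcard', hfs'⟩ := h6 Γ _ p n hp
    have hne' : Nonempty 𝔸' := by
      rw [← Fintype.card_pos_iff, hcard']
      positivity
    have e2 := h2 Γ _ _ _ _ 𝔸' i2 hne' c' ρA Sig hfs' hA hA'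
    have e3 : 0 ≤ hS Sig ρC := by
      refine h3 Γ _ _ _ _ ρC Sig (0 : ((Fin m → MonoidAlgebra (ZMod p) Γ) ⧸
        LinearMap.range f) →+ UnitAddCircle) ?_ hC
      intro γ
      exact AddMonoidHom.ext fun a => rfl
    rw [hcard] at e1
    rw [hcard'] at e2
    have e4 : ((Real.log ((p ^ m : ℕ) : ℝ) : ℝ) : EReal) < ((Real.log ((p ^ n : ℕ) : ℝ) : ℝ) : EReal) := by
      rw [EReal.coe_lt_coe_iff]
      push_cast
      rw [Real.log_pow, Real.log_pow]
      have h7 : 0 < Real.log p := Real.log_pos (by exact_mod_cast hp1)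
      exact mul_lt_mul_of_pos_right (by exact_mod_cast hmn) h7
    calc hS Sig ρB ≤ _ := e1
      _ < _ := e4
      _ ≤ hS Sig ρA := e2
      _ ≤ hS Sig ρA + hS Sig ρC := le_add_of_nonneg_right e3

end Pool.Agent.T5h70.SE
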