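import Pool.Agent.T5h70.SE.Stm

/-!
# PAR: the parameters
-/

set_option autoImplicit false

namespace Pool.Agent.T5h70.SE.PAR

open Pool.Agent.T5h70.SE

theorem t_PAR : S_PAR := by
  intro k c hk hc
  -- a common multiple
  set D : ℕ := (Nat.factorial (k + 1)) ^ 2 with hD
  have hD0 : 0 < D := by positivity
  have hdvd1 : ∀ u, 1 ≤ u → u ≤ k → u * (u + 1) ∣ D := by
    intro u h1 h2
    rw [hD, sq]
    exact Nat.mul_dvd_mul (Nat.dvd_factorial (by omega) (by omega))
      (Nat.dvd_factorial (by omega) (by omega))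
  have hdvd2 : k ∣ D := Dvd.dvd.trans (Dvd.intro _ rfl) (hdvd1 k hk le_rfl)
  obtain ⟨N, hN⟩ := exists_nat_gt (1 / ((D : ℝ) * (c - ((harmonic k : ℚ) : ℝ))))
  have hDr : (0 : ℝ) < D := by exact_mod_cast hD0
  have hcH : 0 < c - ((harmonic k : ℚ) : ℝ) := by linarith
  set w : ℕ := N * D with hw
  set r : ℕ → ℕ := fun u => if u < k then w / (u * (u + 1)) else w / k with hr
  have hr1 : ∀ u, 1 ≤ u → u < k → (r u : ℝ) = (w : ℝ) / u - (w : ℝ) / (u + 1) := by
    intro u h1 h2
    have h3 : u * (u + 1) ∣ w := (hdvd1 u h1 h2.le).mul_left N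
    rw [hr]
    simp only [h2, if_true]
    rw [Nat.cast_div h3 (by
      have : 0 < u * (u + 1) := by positivity
      exact_mod_cast this.ne')]
    have hu : (u : ℝ) ≠ 0 := by
      have : 0 < u := h1
      exact_mod_cast this.ne'
    have hu1 : (u : ℝ) + 1 ≠ 0 := by positivity
    push_cast
    field_simp
    ring
  have hr2 : (r k : ℝ) = (w : ℝ) / k := by
    rw [hr]
    simp only [lt_irrefl, if_false]
    rw [Nat.cast_div (hdvd2.mul_left N)]
    have : 0 < k := hk
    exact_mod_cast this.ne'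
  have hk0 : (k : ℝ) ≠ 0 := by
    have : 0 < k := hk
    exact_mod_cast this.ne'
  refine ⟨w, (∑ u ∈ Finset.Icc 1 k, u * r u) + 1, ∑ u ∈ Finset.Icc 1 k, u * r u, r,
    Nat.lt_succ_self _, ?_, rfl, ?_⟩
  · have h4 : ∀ j, j < k → ((∑ u ∈ Finset.Icc 1 j, u * r u : ℕ) : ℝ) =
        (w : ℝ) * (((harmonic (j + 1) : ℚ) : ℝ) - 1) := by
      intro j
      induction j with
      | zero => intro _; simp [harmonic]
      | succ j ih =>
        intro hj
        rw [Finset.sum_Icc_succ_top (by omega), Nat.cast_add, ih (by omega),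
          Nat.cast_mul (j + 1) (r (j + 1)), hr1 (j + 1) (by omega) hj, harmonic_succ (j + 1)]
        push_cast
        have h5 : (j : ℝ) + 1 ≠ 0 := by positivity
        have h6 : (j : ℝ) + 1 + 1 ≠ 0 := by positivity
        field_simp
        ring
    obtain ⟨j, rfl⟩ : ∃ j, k = j + 1 := ⟨k - 1, by omega⟩
    have h7 : ((∑ u ∈ Finset.Icc 1 (j + 1), u * r u : ℕ) : ℝ) =
        (w : ℝ) * ((harmonic (j + 1) : ℚ) : ℝ) := by
      rw [Finset.sum_Icc_succ_top (by omega), Nat.cast_add, h4 j (by omega),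
        Nat.cast_mul (j + 1) (r (j + 1)), hr2]
      field_simp
      ring
    rw [Nat.cast_add, h7, Nat.cast_one]
    rw [div_lt_iff₀ (by positivity)] at hN
    rw [hw]
    push_cast
    nlinarith
  · intro t ht
    rw [Finset.mem_Icc] at ht
    have h4 : ∀ j, t ≤ j → j ≤ k → ((∑ u ∈ Finset.Ico t j, r u : ℕ) : ℝ) =
        (w : ℝ) / t - (w : ℝ) / j := by
      intro j hj
      induction j, hj using Nat.le_induction with
      | base => intro _; simp
      | succ j hj ih =>
        intro hjk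
        rw [Finset.sum_Ico_succ_top hj, Nat.cast_add, ih (by omega), hr1 j (by omega) (by omega)]
        push_cast
        ring
    have h5 : Finset.Icc t k = Finset.Ico t (k + 1) := by
      ext x
      simp only [Finset.mem_Icc, Finset.mem_Ico]
      omega
    rw [h5, Finset.sum_Ico_succ_top ht.2, Nat.cast_add, h4 k ht.2 le_rfl, hr2]
    ring

end Pool.Agent.T5h70.SE.PAR
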